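import Mathlib

/-!
# Compact symmetric spaces in Euclidean space and their two-numbers
-/

set_option autoImplicit false

open Set Topology
open scoped Cardinal ContDiff

namespace Pool.Agent.T6.H39.TN

variable {E : Type} [NormedAddCommGroup E] [InnerProductSpace ℝ E]

/-- `M` is a smooth submanifold (without boundary) of the Euclidean space `E`, of dimension `d`:
near each of its points it is parametrised by a smooth map `φ` on `ℝ ^ d` which has a smooth left
inverse `ψ` on an open subset `U` of `E`. -/
def IsSmoothSubmanifold (d : ℕ) (M : Set E) : Prop :=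
  ∀ p ∈ M, ∃ (U : Set E) (φ : EuclideanSpace ℝ (Fin d) → E) (ψ : E → EuclideanSpace ℝ (Fin d)),
    IsOpen U ∧ p ∈ U ∧ ContDiff ℝ ∞ φ ∧ ContDiffOn ℝ ∞ ψ U ∧ range φ = M ∩ U ∧
    ∀ v, ψ (φ v) = v

/-- The tangent vectors of `M` at `p`: the velocities of curves in `M` through `p`. -/
def tangentVectors (M : Set E) (p : E) : Set E :=
  {v | ∃ γ : ℝ → E, (∀ t, γ t ∈ M) ∧ γ 0 = p ∧ HasDerivAt γ v 0}

/-- `M` is a compact connected smooth submanifold of the Euclidean space `E` (of positive
dimension), and for each point `p` of `M` the linear isometry `s p` of `E` maps `M` onto itself,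
fixes `p` and has differential `-id` on the tangent space of `M` at `p`. Hence `M` with the
Riemannian metric induced from `E` is a connected compact Riemannian symmetric space, and the
restriction of `s p` to `M` is its geodesic symmetry at `p`. -/
structure IsSymmetricSpace (M : Set E) (s : M → E ≃ₗᵢ[ℝ] E) : Prop where
  /-- `M` is a smooth submanifold of positive dimension -/
  submanifold : ∃ d : ℕ, 0 < d ∧ IsSmoothSubmanifold d M
  /-- `M` is compact -/
  compact : IsCompact M
  /-- `M` is connected -/
  connected : IsConnected M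
  /-- the symmetries map `M` onto itself -/
  maps : ∀ p : M, s p '' M = M
  /-- the symmetry at `p` fixes `p` -/
  fixes : ∀ p : M, s p p = p
  /-- the differential of the symmetry at `p` is `-id` -/
  differential : ∀ p : M, ∀ v ∈ tangentVectors M p, s p v = -v

/-- The subset `A` of `M` is antipodal: `s_x(y) = y` for all `x, y ∈ A`. -/
def IsAntipodal {M : Set E} (s : M → E ≃ₗᵢ[ℝ] E) (A : Set M) : Prop :=
  ∀ x ∈ A, ∀ y ∈ A, s x (y : E) = y

/-- The two-number `#₂ M`: the supremum of the cardinalities of the antipodal subsets. -/
noncomputable def twoNumber {M : Set E} (s : M → E ≃ₗᵢ[ℝ] E) : Cardinal.{0} :=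
  ⨆ A : {A : Set M // IsAntipodal s A}, #A.1

end Pool.Agent.T6.H39.TN
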