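import Pool.Agent.T6.H39.TN.Sph
import Pool.Agent.T6.H39.TN.Sym

/-!
# The unit decomposable tensors form a compact symmetric space
-/

set_option autoImplicit false

open Set Topology
open scoped RealInnerProductSpace ContDiff

namespace Pool.Agent.T6.H39.TN

variable {N : ℕ}

/-- the reflection in the line of `x` -/
noncomputable def Rf (x : Ve N) : Ve N ≃ₗᵢ[ℝ] Ve N := (ℝ ∙ x).reflection

/-- the symmetry -/
noncomputable def Sf (x y z : Ve N) : Te N ≃ₗᵢ[ℝ] Te N :=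
  triIso (Rf x) (Rf y) (Rf z)

theorem Sf_tmul (x y z a b c : Ve N) : Sf x y z (tri a b c) = tri (Rf x a) (Rf y b) (Rf z c) :=
  triIso_tri _ _ _ _ _ _

theorem Rf_self (x : Ve N) : Rf x x = x :=
  Submodule.reflection_mem_subspace_eq_self (Submodule.mem_span_singleton_self x)

theorem Rf_Rf (x a : Ve N) : Rf x (Rf x a) = a := Submodule.reflection_reflection _ a

theorem Rf_orth (x : Ve N) {u : Ve N} (hu : u ∈ (ℝ ∙ x)ᗮ) : Rf x u = -u :=
  Submodule.reflection_mem_subspace_orthogonalComplement_eq_neg hu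

/-- normalisation -/
noncomputable def nz (a : Ve N) : Ve N := ‖a‖⁻¹ • a

theorem norm_nz {a : Ve N} (ha : a ≠ 0) : ‖nz a‖ = 1 := by
  unfold nz
  rw [norm_smul, norm_inv, norm_norm]
  exact inv_mul_cancel₀ (norm_ne_zero_iff.2 ha)

theorem Rf_nz (x a : Ve N) : Rf x (nz a) = nz (Rf x a) := by
  unfold nz
  rw [map_smul, LinearIsometryEquiv.norm_map]

section chart

variable (x y z : Ve N)

/-- the tangent space -/
abbrev Fx : Type := (ℝ ∙ x)ᗮ × (ℝ ∙ y)ᗮ × (ℝ ∙ z)ᗮ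

/-- the parametrisation -/
noncomputable def phi0 (f : Fx x y z) : Te N :=
  tri (nz (x + f.1)) (nz (y + f.2.1)) (nz (z + f.2.2))

/-- the trilinear map in the first variable -/
noncomputable def m1 : Ve N →L[ℝ] Te N :=
  LinearMap.toContinuousLinearMap
    { toFun := fun a => tri a y z
      map_add' := fun a a' => tri_add₁ a a' y z
      map_smul' := fun r a => tri_smul₁ r a y z }

/-- the trilinear map in the second variable -/
noncomputable def m2 : Ve N →L[ℝ] Te N :=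
  LinearMap.toContinuousLinearMap
    { toFun := fun a => tri x a z
      map_add' := fun a a' => tri_add₂ x a a' z
      map_smul' := fun r a => tri_smul₂ r x a z }

/-- the trilinear map in the third variable -/
noncomputable def m3 : Ve N →L[ℝ] Te N :=
  LinearMap.toContinuousLinearMap
    { toFun := fun a => tri x y a
      map_add' := fun a a' => tri_add₃ x y a a'
      map_smul' := fun r a => tri_smul₃ r x y a }

/-- the three contractions -/
noncomputable def c1 : Te N →L[ℝ] Ve N := ContinuousLinearMap.adjoint (m1 y z)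

/-- the three contractions -/
noncomputable def c2 : Te N →L[ℝ] Ve N := ContinuousLinearMap.adjoint (m2 x z)

/-- the three contractions -/
noncomputable def c3 : Te N →L[ℝ] Ve N := ContinuousLinearMap.adjoint (m3 x y)

theorem c1_tmul (a b c : Ve N) : c1 y z (tri a b c) = (⟪y, b⟫ * ⟪z, c⟫) • a := by
  refine ext_inner_right ℝ fun v => ?_
  unfold c1
  rw [ContinuousLinearMap.adjoint_inner_left]
  change ⟪tri a b c, tri v y z⟫ = _
  rw [inner_tri, inner_smul_left, real_inner_comm y b, real_inner_comm z c, conj_trivial]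
  ring

theorem c2_tmul (a b c : Ve N) : c2 x z (tri a b c) = (⟪x, a⟫ * ⟪z, c⟫) • b := by
  refine ext_inner_right ℝ fun v => ?_
  unfold c2
  rw [ContinuousLinearMap.adjoint_inner_left]
  change ⟪tri a b c, tri x v z⟫ = _
  rw [inner_tri, inner_smul_left, real_inner_comm x a, real_inner_comm z c, conj_trivial]
  ring

theorem c3_tmul (a b c : Ve N) : c3 x y (tri a b c) = (⟪x, a⟫ * ⟪y, b⟫) • c := by
  refine ext_inner_right ℝ fun v => ?_
  unfold c3
  rw [ContinuousLinearMap.adjoint_inner_left]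
  change ⟪tri a b c, tri x y v⟫ = _
  rw [inner_tri, inner_smul_left, real_inner_comm x a, real_inner_comm y b, conj_trivial]
  ring

/-- the pairing with the centre of the chart -/
noncomputable def pr (T : Te N) : ℝ := ⟪tri x y z, T⟫

theorem pr_tmul (a b c : Ve N) :
    pr x y z (tri a b c) = ⟪x, a⟫ * (⟪y, b⟫ * ⟪z, c⟫) :=
  inner_tri _ _ _ _ _ _

theorem contDiff_pr : ContDiff ℝ ∞ (pr x y z) := by
  unfold pr
  exact contDiff_const.inner ℝ contDiff_id

/-- the inverse of the parametrisation -/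
noncomputable def psi0 (T : Te N) : Fx x y z :=
  ((pr x y z T)⁻¹ • (ℝ ∙ x)ᗮ.orthogonalProjectionOnto (c1 y z T),
    (pr x y z T)⁻¹ • (ℝ ∙ y)ᗮ.orthogonalProjectionOnto (c2 x z T),
    (pr x y z T)⁻¹ • (ℝ ∙ z)ᗮ.orthogonalProjectionOnto (c3 x y T))

/-- the domain of the chart -/
def Ux : Set (Te N) := {T | 0 < pr x y z T}

theorem isOpen_Ux : IsOpen (Ux x y z) :=
  isOpen_lt continuous_const (contDiff_pr x y z).continuous

theorem contDiffOn_psi0 : ContDiffOn ℝ ∞ (psi0 x y z) (Ux x y z) := by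
  have h1 : ContDiffOn ℝ ∞ (fun T => (pr x y z T)⁻¹) (Ux x y z) :=
    (contDiff_pr x y z).contDiffOn.inv fun T hT => ne_of_gt hT
  have h2 : ∀ (w : Ve N) (c : Te N →L[ℝ] Ve N),
      ContDiff ℝ ∞ fun T => (ℝ ∙ w)ᗮ.orthogonalProjectionOnto (c T) := by
    intro w c
    exact ((ℝ ∙ w)ᗮ.orthogonalProjectionOnto.comp c).contDiff
  unfold psi0
  exact (h1.smul (h2 x _).contDiffOn).prodMk
    ((h1.smul (h2 y _).contDiffOn).prodMk (h1.smul (h2 z _).contDiffOn))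

variable {x y z}

theorem inner_add_orth {x : Ve N} (hx : ‖x‖ = 1) (u : (ℝ ∙ x)ᗮ) : ⟪x, x + (u : Ve N)⟫ = 1 := by
  have h1 : ⟪x, (u : Ve N)⟫ = 0 :=
    (Submodule.mem_orthogonal_singleton_iff_inner_right).1 u.2
  rw [inner_add_right, h1, real_inner_self_eq_norm_sq, hx]
  norm_num

theorem add_orth_ne {x : Ve N} (hx : ‖x‖ = 1) (u : (ℝ ∙ x)ᗮ) : x + (u : Ve N) ≠ 0 := by
  intro h
  have := inner_add_orth hx u
  rw [h, inner_zero_right] at this
  exact zero_ne_one this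

theorem inner_nz {x : Ve N} (hx : ‖x‖ = 1) (u : (ℝ ∙ x)ᗮ) :
    ⟪x, nz (x + (u : Ve N))⟫ = ‖x + (u : Ve N)‖⁻¹ := by
  unfold nz
  rw [inner_smul_right, inner_add_orth hx, mul_one]

theorem contDiff_nz {x : Ve N} (hx : ‖x‖ = 1) :
    ContDiff ℝ ∞ fun u : (ℝ ∙ x)ᗮ => nz (x + (u : Ve N)) := by
  have h1 : ContDiff ℝ ∞ fun u : (ℝ ∙ x)ᗮ => x + (u : Ve N) :=
    contDiff_const.add ((ℝ ∙ x)ᗮ.subtypeL.contDiff)
  unfold nz
  exact ((h1.norm ℝ fun u => add_orth_ne hx u).inv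
    fun u => norm_ne_zero_iff.2 (add_orth_ne hx u)).smul h1

theorem contDiff_phi0 (hx : ‖x‖ = 1) (hy : ‖y‖ = 1) (hz : ‖z‖ = 1) :
    ContDiff ℝ ∞ (phi0 x y z) := by
  have h1 : ContDiff ℝ ∞ fun f : Fx x y z => nz (x + (f.1 : Ve N)) :=
    (contDiff_nz hx).comp contDiff_fst
  have h2 : ContDiff ℝ ∞ fun f : Fx x y z => nz (y + (f.2.1 : Ve N)) :=
    (contDiff_nz hy).comp (contDiff_fst.comp contDiff_snd)
  have h3 : ContDiff ℝ ∞ fun f : Fx x y z => nz (z + (f.2.2 : Ve N)) :=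
    (contDiff_nz hz).comp (contDiff_snd.comp contDiff_snd)
  exact contDiff_tri h1 h2 h3

theorem norm_inv_pos {x : Ve N} (hx : ‖x‖ = 1) (u : (ℝ ∙ x)ᗮ) : 0 < ‖x + (u : Ve N)‖⁻¹ :=
  inv_pos.2 (norm_pos_iff.2 (add_orth_ne hx u))

theorem pr_phi0 (hx : ‖x‖ = 1) (hy : ‖y‖ = 1) (hz : ‖z‖ = 1) (f : Fx x y z) :
    pr x y z (phi0 x y z f) =
      ‖x + (f.1 : Ve N)‖⁻¹ * (‖y + (f.2.1 : Ve N)‖⁻¹ * ‖z + (f.2.2 : Ve N)‖⁻¹) := by
  unfold phi0
  rw [pr_tmul, inner_nz hx, inner_nz hy, inner_nz hz]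

theorem proj_add {x : Ve N} (u : (ℝ ∙ x)ᗮ) :
    (ℝ ∙ x)ᗮ.orthogonalProjectionOnto (x + (u : Ve N)) = u := by
  rw [map_add]
  have h1 : (ℝ ∙ x)ᗮ.orthogonalProjectionOnto x = 0 := by
    rw [Submodule.orthogonalProjectionOnto_eq_zero_iff, Submodule.orthogonal_orthogonal]
    exact Submodule.mem_span_singleton_self x
  rw [h1, zero_add]
  exact Submodule.orthogonalProjectionOnto_mem_subspace_eq_self u

theorem psi0_phi0 (hx : ‖x‖ = 1) (hy : ‖y‖ = 1) (hz : ‖z‖ = 1) (f : Fx x y z) :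
    psi0 x y z (phi0 x y z f) = f := by
  have hp := pr_phi0 hx hy hz f
  have e1 := norm_inv_pos hx f.1
  have e2 := norm_inv_pos hy f.2.1
  have e3 := norm_inv_pos hz f.2.2
  have key : ∀ {w : Ve N} (u : (ℝ ∙ w)ᗮ) (r s : ℝ), r * ‖w + (u : Ve N)‖⁻¹ * s = 1 →
      r • (ℝ ∙ w)ᗮ.orthogonalProjectionOnto (s • nz (w + (u : Ve N))) = u := by
    intro w u r s hrs
    unfold nz
    rw [map_smul, map_smul, proj_add, smul_smul, smul_smul]
    rw [show r * s * ‖w + (u : Ve N)‖⁻¹ = 1 by rw [← hrs]; ring, one_smul]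
  unfold psi0
  rw [hp]
  unfold phi0
  rw [c1_tmul, c2_tmul, c3_tmul, inner_nz hx, inner_nz hy, inner_nz hz]
  have n1 : ‖x + (f.1 : Ve N)‖ ≠ 0 := norm_ne_zero_iff.2 (add_orth_ne hx f.1)
  have n2 : ‖y + (f.2.1 : Ve N)‖ ≠ 0 := norm_ne_zero_iff.2 (add_orth_ne hy f.2.1)
  have n3 : ‖z + (f.2.2 : Ve N)‖ ≠ 0 := norm_ne_zero_iff.2 (add_orth_ne hz f.2.2)
  refine Prod.ext (key f.1 _ _ ?_) (Prod.ext (key f.2.1 _ _ ?_) (key f.2.2 _ _ ?_))
  all_goals
    field_simp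

theorem exists_lift_nz {x X : Ve N} (hX : ‖X‖ = 1) (h : 0 < ⟪x, X⟫) (hx : ‖x‖ = 1) :
    ∃ u : (ℝ ∙ x)ᗮ, nz (x + (u : Ve N)) = X := by
  have hu : (⟪x, X⟫)⁻¹ • X - x ∈ (ℝ ∙ x)ᗮ := by
    rw [Submodule.mem_orthogonal_singleton_iff_inner_right, inner_sub_right, inner_smul_right,
      real_inner_self_eq_norm_sq, hx, inv_mul_cancel₀ h.ne']
    norm_num
  refine ⟨⟨_, hu⟩, ?_⟩
  unfold nz
  simp only [add_sub_cancel]
  rw [norm_smul, hX, mul_one, Real.norm_eq_abs, abs_of_pos (inv_pos.2 h), inv_inv, smul_smul,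
    mul_inv_cancel₀ h.ne', one_smul]

theorem range_phi0 (hx : ‖x‖ = 1) (hy : ‖y‖ = 1) (hz : ‖z‖ = 1) :
    range (phi0 x y z) = Seg N ∩ Ux x y z := by
  ext T
  constructor
  · rintro ⟨f, rfl⟩
    refine ⟨⟨_, _, _, norm_nz (add_orth_ne hx _), norm_nz (add_orth_ne hy _),
      norm_nz (add_orth_ne hz _), rfl⟩, ?_⟩
    change 0 < pr x y z _
    rw [pr_phi0 hx hy hz]
    have e1 := norm_inv_pos hx f.1
    have e2 := norm_inv_pos hy f.2.1
    have e3 := norm_inv_pos hz f.2.2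
    positivity
  · rintro ⟨⟨X, Y, Z, hX, hY, hZ, rfl⟩, hT⟩
    change 0 < pr x y z _ at hT
    rw [pr_tmul] at hT
    have key : ∃ g : Gr, 0 < ⟪x, sg g.1 • X⟫ ∧ 0 < ⟪y, sg g.2 • Y⟫ ∧
        0 < ⟪z, sg (g.1 + g.2) • Z⟫ := by
      simp only [inner_smul_right]
      have hs : ∀ r : ℝ, r ≠ 0 → ∃ a : ZMod 2, 0 < sg a * r := by
        intro r hr
        rcases lt_or_gt_of_ne hr with h | h
        · exact ⟨1, by rw [sg_one]; linarith⟩
        · exact ⟨0, by rw [sg_zero]; linarith⟩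
      obtain ⟨a, ha⟩ := hs ⟪x, X⟫ (by rintro h; rw [h] at hT; simp at hT)
      obtain ⟨b, hb⟩ := hs ⟪y, Y⟫ (by rintro h; rw [h] at hT; simp at hT)
      refine ⟨(a, b), ha, hb, ?_⟩
      have h1 : (sg a * ⟪x, X⟫) * (sg b * ⟪y, Y⟫) * (sg (a + b) * ⟪z, Z⟫) =
          ⟪x, X⟫ * (⟪y, Y⟫ * ⟪z, Z⟫) := by
        rw [sg_add]
        calc _ = (sg a * sg a) * (sg b * sg b) * (⟪x, X⟫ * (⟪y, Y⟫ * ⟪z, Z⟫)) := by ring
          _ = _ := by rw [sg_sq, sg_sq]; ring
      rw [← h1] at hT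
      exact (pos_iff_pos_of_mul_pos hT).1 (mul_pos ha hb)
    obtain ⟨g, h1, h2, h3⟩ := key
    have hn : ∀ (a : ZMod 2) {W : Ve N}, ‖W‖ = 1 → ‖sg a • W‖ = 1 := by
      intro a W hW
      rw [norm_smul, Real.norm_eq_abs, abs_sg, hW, one_mul]
    obtain ⟨u, hu⟩ := exists_lift_nz (hn g.1 hX) h1 hx
    obtain ⟨v, hv⟩ := exists_lift_nz (hn g.2 hY) h2 hy
    obtain ⟨w, hw⟩ := exists_lift_nz (hn (g.1 + g.2) hZ) h3 hz
    refine ⟨(u, v, w), ?_⟩
    unfold phi0
    rw [hu, hv, hw]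
    exact tmul_signs g X Y Z

theorem phi0_zero (hx : ‖x‖ = 1) (hy : ‖y‖ = 1) (hz : ‖z‖ = 1) :
    phi0 x y z 0 = tri x y z := by
  unfold phi0 nz
  simp [hx, hy, hz]

theorem phi0_neg (f : Fx x y z) : phi0 x y z (-f) = Sf x y z (phi0 x y z f) := by
  unfold phi0
  rw [Sf_tmul, Rf_nz, Rf_nz, Rf_nz, map_add, map_add, map_add, Rf_self, Rf_self, Rf_self,
    Rf_orth x f.1.2, Rf_orth y f.2.1.2, Rf_orth z f.2.2.2]
  rfl

theorem mem_Ux (hx : ‖x‖ = 1) (hy : ‖y‖ = 1) (hz : ‖z‖ = 1) :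
    tri x y z ∈ Ux x y z := by
  have : tri x y z ∈ range (phi0 x y z) := ⟨0, phi0_zero hx hy hz⟩
  rw [range_phi0 hx hy hz] at this
  exact this.2

theorem finrank_orth {x : Ve N} (hx : ‖x‖ = 1) : Module.finrank ℝ (ℝ ∙ x)ᗮ = N := by
  have hx0 : x ≠ 0 := by
    intro h
    rw [h, norm_zero] at hx
    exact zero_ne_one hx
  have h1 := Submodule.finrank_add_finrank_orthogonal (ℝ ∙ x)
  rw [finrank_span_singleton hx0, finrank_euclideanSpace, Fintype.card_fin] at h1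
  omega

theorem finrank_Fx (hx : ‖x‖ = 1) (hy : ‖y‖ = 1) (hz : ‖z‖ = 1) :
    Module.finrank ℝ (Fx x y z) = 3 * N := by
  rw [Module.finrank_prod, Module.finrank_prod, finrank_orth hx, finrank_orth hy, finrank_orth hz]
  ring

end chart

theorem isSmoothSubmanifold_seg (N : ℕ) : IsSmoothSubmanifold (3 * N) (Seg N) := by
  rintro _ ⟨x, y, z, hx, hy, hz, rfl⟩
  have hfin : Module.finrank ℝ (Fx x y z) = Module.finrank ℝ (EuclideanSpace ℝ (Fin (3 * N))) := by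
    rw [finrank_Fx hx hy hz, finrank_euclideanSpace, Fintype.card_fin]
  let e : Fx x y z ≃L[ℝ] EuclideanSpace ℝ (Fin (3 * N)) := ContinuousLinearEquiv.ofFinrankEq hfin
  refine ⟨Ux x y z, phi0 x y z ∘ e.symm, e ∘ psi0 x y z, isOpen_Ux x y z, mem_Ux hx hy hz,
    (contDiff_phi0 hx hy hz).comp e.symm.contDiff,
    e.contDiff.comp_contDiffOn (contDiffOn_psi0 x y z), ?_, fun v => ?_⟩
  · rw [range_comp, e.symm.surjective.range_eq, image_univ, range_phi0 hx hy hz]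
  · simp only [Function.comp_apply]
    rw [psi0_phi0 hx hy hz, ContinuousLinearEquiv.apply_symm_apply]

theorem isCompact_seg (N : ℕ) : IsCompact (Seg N) := by
  have : CompactSpace (Seg N) := (isQuotientMap_qmap (N := N)).surjective.compactSpace
    (qmap N).continuous
  exact isCompact_iff_compactSpace.2 this

theorem isConnected_seg (N : ℕ) (hN : 1 ≤ N) : IsConnected (Seg N) := by
  have h1 : 1 < Module.rank ℝ (Ve N) := by
    rw [← Module.finrank_eq_rank, finrank_euclideanSpace, Fintype.card_fin]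
    exact_mod_cast (by omega : 1 < N + 1)
  have h2 : IsConnected (Metric.sphere (0 : Ve N) 1) := isConnected_sphere h1 0 zero_le_one
  have : ConnectedSpace (Sp N) := isConnected_iff_connectedSpace.1 h2
  have h3 : ConnectedSpace (Seg N) := (isQuotientMap_qmap (N := N)).surjective.connectedSpace
    (qmap N).continuous
  exact isConnected_iff_connectedSpace.2 h3

/-- The symmetries. -/
noncomputable def symm (p : Seg N) : Te N ≃ₗᵢ[ℝ] Te N :=
  Sf p.2.choose p.2.choose_spec.choose p.2.choose_spec.choose_spec.choose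

theorem symm_spec (p : Seg N) : ∃ x y z : Ve N, ‖x‖ = 1 ∧ ‖y‖ = 1 ∧ ‖z‖ = 1 ∧
    (p : Te N) = tri x y z ∧ symm p = Sf x y z := by
  have h := p.2.choose_spec.choose_spec.choose_spec
  exact ⟨_, _, _, h.1, h.2.1, h.2.2.1, h.2.2.2, rfl⟩

theorem Sf_mem (x y z : Ve N) {T : Te N} (hT : T ∈ Seg N) : Sf x y z T ∈ Seg N := by
  obtain ⟨a, b, c, ha, hb, hc, rfl⟩ := hT
  refine ⟨Rf x a, Rf y b, Rf z c, ?_, ?_, ?_, Sf_tmul x y z a b c⟩
  · rw [LinearIsometryEquiv.norm_map, ha]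
  · rw [LinearIsometryEquiv.norm_map, hb]
  · rw [LinearIsometryEquiv.norm_map, hc]

theorem Sf_Sf (x y z : Ve N) {T : Te N} (hT : T ∈ Seg N) : Sf x y z (Sf x y z T) = T := by
  obtain ⟨a, b, c, ha, hb, hc, rfl⟩ := hT
  rw [Sf_tmul, Sf_tmul, Rf_Rf, Rf_Rf, Rf_Rf]

theorem differential_seg {x y z : Ve N} (hx : ‖x‖ = 1) (hy : ‖y‖ = 1) (hz : ‖z‖ = 1) {v : Te N}
    (hv : v ∈ tangentVectors (Seg N) (tri x y z)) : Sf x y z v = -v := by
  obtain ⟨γ, hγ, h0, hd⟩ := hv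
  have hU : ∀ᶠ t in 𝓝 (0 : ℝ), γ t ∈ Ux x y z := by
    have hc : ContinuousAt γ 0 := hd.continuousAt
    refine hc.eventually_mem ?_
    rw [h0]
    exact (isOpen_Ux x y z).mem_nhds (mem_Ux hx hy hz)
  let κ : ℝ → Fx x y z := fun t => psi0 x y z (γ t)
  have hκ : DifferentiableAt ℝ κ 0 := by
    have h1 : DifferentiableAt ℝ (psi0 x y z) (γ 0) := by
      rw [h0]
      exact ((contDiffOn_psi0 x y z).contDiffAt
        ((isOpen_Ux x y z).mem_nhds (mem_Ux hx hy hz))).differentiableAt (by simp)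
    exact h1.comp (0 : ℝ) hd.differentiableAt
  have hγκ : ∀ᶠ t in 𝓝 (0 : ℝ), phi0 x y z (κ t) = γ t := by
    filter_upwards [hU] with t ht
    have : γ t ∈ range (phi0 x y z) := by
      rw [range_phi0 hx hy hz]
      exact ⟨hγ t, ht⟩
    obtain ⟨f, hf⟩ := this
    change phi0 x y z (psi0 x y z (γ t)) = γ t
    rw [← hf, psi0_phi0 hx hy hz]
  have hκ0 : κ 0 = 0 := by
    change psi0 x y z (γ 0) = 0
    rw [h0, ← phi0_zero hx hy hz, psi0_phi0 hx hy hz]
  have hφ : DifferentiableAt ℝ (phi0 x y z) 0 :=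
    (contDiff_phi0 hx hy hz).contDiffAt.differentiableAt (by simp)
  -- the derivative of `γ`
  have h1 : HasDerivAt γ (fderiv ℝ (phi0 x y z) 0 (deriv κ 0)) 0 := by
    have h2 : HasDerivAt (fun t => phi0 x y z (κ t)) (fderiv ℝ (phi0 x y z) 0 (deriv κ 0)) 0 := by
      have h3 : HasFDerivAt (phi0 x y z) (fderiv ℝ (phi0 x y z) 0) (κ 0) := by
        rw [hκ0]
        exact hφ.hasFDerivAt
      exact h3.comp_hasDerivAt (0 : ℝ) hκ.hasDerivAt
    exact h2.congr_of_eventuallyEq (hγκ.mono fun t ht => ht.symm)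
  have h2 : HasDerivAt (fun t => Sf x y z (γ t)) (fderiv ℝ (phi0 x y z) 0 (-(deriv κ 0))) 0 := by
    have h3 : HasDerivAt (fun t => phi0 x y z (-(κ t)))
        (fderiv ℝ (phi0 x y z) 0 (-(deriv κ 0))) 0 := by
      have h4 : HasFDerivAt (phi0 x y z) (fderiv ℝ (phi0 x y z) 0) (-(κ 0)) := by
        rw [hκ0, neg_zero]
        exact hφ.hasFDerivAt
      exact h4.comp_hasDerivAt (0 : ℝ) hκ.hasDerivAt.neg
    refine h3.congr_of_eventuallyEq (hγκ.mono fun t ht => ?_)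
    change Sf x y z (γ t) = phi0 x y z (-(κ t))
    rw [phi0_neg, ht]
  have h3 : HasDerivAt (fun t => Sf x y z (γ t)) (Sf x y z v) 0 := by
    exact ((Sf x y z).toContinuousLinearEquiv.toContinuousLinearMap.hasFDerivAt).comp_hasDerivAt
      (0 : ℝ) hd
  have e1 := h3.unique h2
  have e2 := hd.unique h1
  rw [e1, e2, map_neg]

/-- **The unit decomposable tensors form a compact symmetric space.** -/
theorem isSymmetricSpace_seg (N : ℕ) (hN : 1 ≤ N) : IsSymmetricSpace (Seg N) symm where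
  submanifold := ⟨3 * N, by omega, isSmoothSubmanifold_seg N⟩
  compact := isCompact_seg N
  connected := isConnected_seg N hN
  maps p := by
    obtain ⟨x, y, z, hx, hy, hz, hp, hs⟩ := symm_spec p
    rw [hs]
    ext T
    constructor
    · rintro ⟨T', hT', rfl⟩
      exact Sf_mem x y z hT'
    · intro hT
      exact ⟨Sf x y z T, Sf_mem x y z hT, Sf_Sf x y z hT⟩
  fixes p := by
    obtain ⟨x, y, z, hx, hy, hz, hp, hs⟩ := symm_spec p
    rw [hs, hp, Sf_tmul, Rf_self, Rf_self, Rf_self]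
  differential p v hv := by
    obtain ⟨x, y, z, hx, hy, hz, hp, hs⟩ := symm_spec p
    rw [hs]
    rw [hp] at hv
    exact differential_seg hx hy hz hv

end Pool.Agent.T6.H39.TN
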