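import Mathlib

/-!
# Singular cohomology with coefficients in `ℤ/2`

Definitions and a lower bound for the dimension of `H^n` by pairing with functionals.
-/

set_option autoImplicit false

open Set Topology
open scoped Cardinal

namespace Pool.Agent.T6.H39.TN

/-- The standard `n`-simplex. -/
abbrev Simplex (n : ℕ) : Type := stdSimplex ℝ (Fin (n + 1))

/-- The inclusion of the `i`-th face (opposite to the `i`-th vertex) of the standard
`(n + 1)`-simplex. -/
noncomputable def face (n : ℕ) (i : Fin (n + 2)) : C(Simplex n, Simplex (n + 1)) :=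
  ⟨stdSimplex.map i.succAbove, stdSimplex.continuous_map _⟩

/-- The singular `n`-cochains of the space `M` with coefficients in `ℤ/2`: the functions on the set
of all singular `n`-simplices of `M`. -/
abbrev Cochain (M : Type) [TopologicalSpace M] (n : ℕ) : Type := C(Simplex n, M) → ZMod 2

/-- The coboundary: `(δ f)(σ)` is the sum of the values of `f` on the faces of `σ`. -/
noncomputable def coboundary (M : Type) [TopologicalSpace M] (n : ℕ) :
    Cochain M n →ₗ[ZMod 2] Cochain M (n + 1) where
  toFun f σ := ∑ i : Fin (n + 2), f (σ.comp (face n i))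
  map_add' f g := by
    funext σ
    simp [Finset.sum_add_distrib]
  map_smul' c f := by
    funext σ
    simp [Finset.mul_sum]

/-- The coboundaries of degree `n`. -/
noncomputable def coboundaries (M : Type) [TopologicalSpace M] :
    (n : ℕ) → Submodule (ZMod 2) (Cochain M n)
  | 0 => ⊥
  | n + 1 => LinearMap.range (coboundary M n)

/-- The singular cohomology `H^n(M; ℤ/2)`: cocycles modulo coboundaries. -/
abbrev Cohomology (M : Type) [TopologicalSpace M] (n : ℕ) : Type :=
  LinearMap.ker (coboundary M n) ⧸
    (coboundaries M n).submoduleOf (LinearMap.ker (coboundary M n))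

/-- `dim H(M; ℤ/2) = ∑_n dim H^n(M; ℤ/2)`, as a cardinal number. -/
noncomputable def totalBetti (M : Type) [TopologicalSpace M] : Cardinal.{0} :=
  Cardinal.sum fun n : ℕ => Module.rank (ZMod 2) (Cohomology M n)

/-- Lower bound for the dimension of `H^n`: a linear map on cochains which vanishes on the
coboundaries and takes linearly independent values on some cocycles. -/
theorem le_rank {M : Type} [TopologicalSpace M] {n k : ℕ} {R : Type} [AddCommGroup R]
    [Module (ZMod 2) R] (L : Cochain M n →ₗ[ZMod 2] R) (hL : ∀ f ∈ coboundaries M n, L f = 0)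
    (t : Fin k → Cochain M n) (ht : ∀ j, coboundary M n (t j) = 0)
    (hind : LinearIndependent (ZMod 2) fun j => L (t j)) :
    (k : Cardinal.{0}) ≤ Module.rank (ZMod 2) (Cohomology M n) := by
  let K := LinearMap.ker (coboundary M n)
  let L' : Cohomology M n →ₗ[ZMod 2] R :=
    Submodule.liftQ ((coboundaries M n).submoduleOf K) (L.comp K.subtype) (by
      intro f hf
      exact hL _ hf)
  let h : Fin k → Cohomology M n := fun j => Submodule.Quotient.mk ⟨t j, ht j⟩
  have h1 : LinearIndependent (ZMod 2) (L' ∘ h) := by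
    have : L' ∘ h = fun j => L (t j) := by
      funext j
      rfl
    rw [this]
    exact hind
  have h2 : LinearIndependent (ZMod 2) h := h1.of_comp L'
  have h3 := h2.cardinal_le_rank
  simpa using h3

/-- Lower bound for the total Betti number. -/
theorem le_totalBetti {M : Type} [TopologicalSpace M] (N : ℕ)
    (h : ∀ n ≤ N, ((n + 1 : ℕ) : Cardinal.{0}) ≤ Module.rank (ZMod 2) (Cohomology M n)) :
    (((N + 1) * (N + 2) / 2 : ℕ) : Cardinal.{0}) ≤ totalBetti M := by
  have h1 : Cardinal.sum (fun n : ℕ => ((if n ≤ N then n + 1 else 0 : ℕ) : Cardinal.{0})) ≤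
      totalBetti M := by
    refine Cardinal.sum_le_sum _ _ fun n => ?_
    split_ifs with hn
    · exact h n hn
    · simp
  refine le_trans ?_ h1
  have h2 : Cardinal.sum (fun n : ℕ => ((if n ≤ N then n + 1 else 0 : ℕ) : Cardinal.{0})) =
      #((n : ℕ) × Fin (if n ≤ N then n + 1 else 0)) := by
    rw [Cardinal.mk_sigma]
    congr 1
    funext n
    rw [Cardinal.mk_fin]
  rw [h2]
  have h3 : (((N + 1) * (N + 2) / 2 : ℕ) : Cardinal.{0}) =
      #((n : Fin (N + 1)) × Fin (n + 1)) := by
    rw [Cardinal.mk_fintype, Fintype.card_sigma]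
    congr 1
    simp only [Fintype.card_fin]
    rw [Fin.sum_univ_eq_sum_range (fun i => i + 1) (N + 1)]
    have : ∀ m : ℕ, ∑ i ∈ Finset.range m, (i + 1) = m * (m + 1) / 2 := by
      intro m
      induction m with
      | zero => simp
      | succ m ih =>
        rw [Finset.sum_range_succ, ih]
        have h4 : (m + 1) * (m + 1 + 1) = m * (m + 1) + 2 * (m + 1) := by ring
        rw [h4]
        omega
    rw [this]
  rw [h3]
  refine Cardinal.mk_le_of_injective
    (f := fun x : (n : Fin (N + 1)) × Fin (n + 1) =>
      (⟨x.1, ⟨x.2, by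
        have := x.1.2
        rw [if_pos (by omega)]
        exact x.2.2⟩⟩ : (n : ℕ) × Fin (if n ≤ N then n + 1 else 0))) ?_
  rintro ⟨a, b⟩ ⟨a', b'⟩ hab
  simp only [Sigma.mk.injEq] at hab
  obtain ⟨h5, h6⟩ := hab
  have h7 : a = a' := Fin.ext h5
  subst h7
  have h8 : b = b' := by
    apply Fin.ext
    have := eq_of_heq h6
    simpa using congrArg Fin.val this
  rw [h8]

end Pool.Agent.T6.H39.TN
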