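import Mathlib

/-!
# Combinatorics of cycles and cocycles for `(ℤ/2)²`
-/

set_option autoImplicit false

open Finset Polynomial

namespace Pool.Agent.T6.H39.TN

/-- The group `(ℤ/2)²`. -/
abbrev Gr : Type := ZMod 2 × ZMod 2

/-- A product over consecutive pairs. -/
def chainProd {R : Type} [CommMonoid R] {n : ℕ} (B : Fin n → Gr → Gr → R) (w : Fin (n + 1) → Gr) :
    R :=
  ∏ l : Fin n, B l (w l.castSucc) (w l.succ)

theorem chainProd_cons {R : Type} [CommMonoid R] {n : ℕ} (B : Fin (n + 1) → Gr → Gr → R) (g : Gr)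
    (w : Fin (n + 1) → Gr) :
    chainProd B (Fin.cons g w) = B 0 g (w 0) * chainProd (fun l => B l.succ) w := by
  unfold chainProd
  rw [Fin.prod_univ_succ]
  congr 1

/-- the sum over all faces of a product of additive functions of consecutive pairs vanishes. -/
theorem sum_faces {n : ℕ} (A : Fin n → Gr → Gr → ZMod 2)
    (hA : ∀ l u v z, A l u v + A l v z = A l u z) (w : Fin (n + 2) → Gr) :
    ∑ i : Fin (n + 2), chainProd A (w ∘ i.succAbove) = 0 := by
  induction n with
  | zero =>
    simp only [chainProd, Finset.univ_eq_empty, Finset.prod_empty, Finset.sum_const,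
      Finset.card_univ, Fintype.card_fin]
    decide
  | succ n ih =>
    obtain ⟨g, w, rfl⟩ : ∃ (g : Gr) (w' : Fin (n + 2) → Gr), w = Fin.cons g w' :=
      ⟨w 0, Fin.tail w, (Fin.cons_self_tail w).symm⟩
    obtain ⟨g', v, rfl⟩ : ∃ (g' : Gr) (v : Fin (n + 1) → Gr), w = Fin.cons g' v :=
      ⟨w 0, Fin.tail w, (Fin.cons_self_tail w).symm⟩
    have h1 : ∀ (x : Gr) (u : Fin (n + 2) → Gr) (i : Fin (n + 2)),
        (Fin.cons x u : Fin (n + 3) → Gr) ∘ i.succ.succAbove =
          Fin.cons x (u ∘ i.succAbove) := by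
      intro x u i
      funext l
      refine Fin.cases ?_ (fun l => ?_) l
      · simp
      · simp
    have h0 : ∀ (m : ℕ) (x : Gr) (u : Fin (m + 1) → Gr),
        (Fin.cons x u : Fin (m + 2) → Gr) ∘ (0 : Fin (m + 2)).succAbove = u := by
      intro m x u
      funext l
      simp
    have h2 : ∀ (x : Gr) (u : Fin (n + 1) → Gr) (i : Fin (n + 1)),
        (Fin.cons x u : Fin (n + 2) → Gr) ∘ i.succ.succAbove =
          Fin.cons x (u ∘ i.succAbove) := by
      intro x u i
      funext l
      refine Fin.cases ?_ (fun l => ?_) l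
      · simp
      · simp
    rw [Fin.sum_univ_succ]
    simp only [h1, h0, chainProd_cons]
    have ih' := ih (fun l => A l.succ) (fun l => hA l.succ) (Fin.cons g' v)
    rw [Fin.sum_univ_succ] at ih' ⊢
    simp only [h2, h0] at ih' ⊢
    have h3 : ∀ i : Fin (n + 1), (Fin.cons g' (v ∘ i.succAbove) : Fin (n + 1) → Gr) 0 = g' :=
      fun i => rfl
    simp only [h3, ← Finset.mul_sum]
    have h4 : ∑ i : Fin (n + 1), chainProd (fun l => A l.succ) (Fin.cons g' (v ∘ i.succAbove)) =
        chainProd (fun l => A l.succ) v := by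
      have := ih'
      rw [add_comm] at this
      have h5 := eq_neg_of_add_eq_zero_left this
      rwa [ZModModule.neg_eq_self] at h5
    rw [h4, ← hA 0 g g' (v 0)]
    have h6 : ∀ a b c : ZMod 2, a * c + ((b + a) * c + b * c) = 0 := by decide
    exact h6 _ _ _

theorem sum_zmod {R : Type} [AddCommMonoid R] (f : ZMod 2 → R) : ∑ g : ZMod 2, f g = f 0 + f 1 :=
  Fin.sum_univ_two (f : Fin 2 → R)

theorem sum_Gr {R : Type} [AddCommMonoid R] (f : Gr → R) :
    ∑ g : Gr, f g = f (0, 0) + f (0, 1) + (f (1, 0) + f (1, 1)) := by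
  rw [Fintype.sum_prod_type, sum_zmod, sum_zmod, sum_zmod]

/-- the transfer matrix of the shuffles: `X` if the second coordinates are equal, plus `1` if the
first coordinates are equal. -/
noncomputable def Mt (u v : Gr) : (ZMod 2)[X] := C (1 + u.2 + v.2) * X + C (1 + u.1 + v.1)

theorem sum_Mt_left (v : Gr) : ∑ g : Gr, Mt g v = 0 := by
  have h : ∀ v : Gr, (∑ g : Gr, (1 + g.2 + v.2) = 0) ∧ ∑ g : Gr, (1 + g.1 + v.1) = 0 := by decide
  have h1 : ∑ g : Gr, Mt g v = C (∑ g : Gr, (1 + g.2 + v.2)) * X + C (∑ g : Gr, (1 + g.1 + v.1)) := by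
    unfold Mt
    rw [Finset.sum_add_distrib, map_sum, map_sum, Finset.sum_mul]
  rw [h1, (h v).1, (h v).2]
  simp

theorem Mt_comm (u v : Gr) : Mt u v = Mt v u := by
  unfold Mt
  rw [add_right_comm, add_right_comm (1 : ZMod 2) u.1]

theorem sum_Mt_right (v : Gr) : ∑ g : Gr, Mt v g = 0 := by
  have : ∀ g, Mt v g = Mt g v := fun g => Mt_comm v g
  simp only [this, sum_Mt_left]

theorem sum_Mt_mul (u v : Gr) : ∑ g : Gr, Mt u g * Mt g v = 0 := by
  have h : ∀ u v : Gr, (∑ g : Gr, (1 + u.2 + g.2) * (1 + g.2 + v.2) = 0) ∧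
      (∑ g : Gr, ((1 + u.2 + g.2) * (1 + g.1 + v.1) + (1 + u.1 + g.1) * (1 + g.2 + v.2)) = 0) ∧
      ∑ g : Gr, (1 + u.1 + g.1) * (1 + g.1 + v.1) = 0 := by decide
  have h1 : ∑ g : Gr, Mt u g * Mt g v =
      C (∑ g : Gr, (1 + u.2 + g.2) * (1 + g.2 + v.2)) * X ^ 2 +
      C (∑ g : Gr, ((1 + u.2 + g.2) * (1 + g.1 + v.1) + (1 + u.1 + g.1) * (1 + g.2 + v.2))) * X +
      C (∑ g : Gr, (1 + u.1 + g.1) * (1 + g.1 + v.1)) := by
    unfold Mt
    rw [map_sum, map_sum, map_sum, Finset.sum_mul, Finset.sum_mul, ← Finset.sum_add_distrib,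
      ← Finset.sum_add_distrib]
    refine Finset.sum_congr rfl fun g _ => ?_
    simp only [map_add, map_mul]
    ring
  rw [h1, (h u v).1, (h u v).2.1, (h u v).2.2]
  simp

/-- The coefficients of the cycles. -/
noncomputable def Pw {n : ℕ} (w : Fin (n + 1) → Gr) : (ZMod 2)[X] :=
  chainProd (fun _ => Mt) w

theorem Pw_add {n : ℕ} (g : Gr) (w : Fin (n + 1) → Gr) : Pw (fun l => g + w l) = Pw w := by
  have h : ∀ x y z : ZMod 2, 1 + (x + y) + (x + z) = 1 + y + z := by decide
  unfold Pw chainProd Mt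
  simp only [Prod.fst_add, Prod.snd_add, h]

theorem sum_Pw_update {n : ℕ} (i : Fin (n + 2)) (w : Fin (n + 2) → Gr) :
    ∑ g : Gr, Pw (Function.update w i g) = 0 := by
  classical
  unfold Pw chainProd
  let A : Finset (Fin (n + 1)) := Finset.univ.filter fun l => l.castSucc = i ∨ l.succ = i
  have hsplit : ∀ g : Gr, ∏ l : Fin (n + 1),
      Mt (Function.update w i g l.castSucc) (Function.update w i g l.succ) =
      (∏ l ∈ A, Mt (Function.update w i g l.castSucc) (Function.update w i g l.succ)) *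
        ∏ l ∈ Aᶜ, Mt (w l.castSucc) (w l.succ) := by
    intro g
    have e1 : ∏ l ∈ Aᶜ, Mt (Function.update w i g l.castSucc) (Function.update w i g l.succ) =
        ∏ l ∈ Aᶜ, Mt (w l.castSucc) (w l.succ) := by
      refine Finset.prod_congr rfl fun l hl => ?_
      have hl' : ¬ (l.castSucc = i ∨ l.succ = i) := by
        intro h
        exact (Finset.mem_compl.1 hl) (Finset.mem_filter.2 ⟨Finset.mem_univ l, h⟩)
      rw [not_or] at hl'
      rw [Function.update_of_ne hl'.1, Function.update_of_ne hl'.2]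
    rw [← e1]
    exact (Finset.prod_mul_prod_compl A _).symm
  simp only [hsplit, ← Finset.sum_mul]
  convert zero_mul _
  rcases Fin.eq_castSucc_or_eq_last i with ⟨j, rfl⟩ | rfl
  · rcases Fin.eq_zero_or_eq_succ j with rfl | ⟨j', rfl⟩
    · -- the first vertex
      have hA : A = {0} := by
        ext l
        simp only [A, Finset.mem_filter, Finset.mem_univ, true_and, Finset.mem_singleton,
          Fin.ext_iff, Fin.val_castSucc, Fin.val_succ, Fin.val_zero]
        omega
      rw [hA]
      simp only [Finset.prod_singleton]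
      have h1 : ∀ g, Mt (Function.update w (Fin.castSucc 0) g (Fin.castSucc 0))
          (Function.update w (Fin.castSucc 0) g (Fin.succ 0)) = Mt g (w (Fin.succ 0)) := by
        intro g
        rw [Function.update_self, Function.update_of_ne (by simp [Fin.ext_iff])]
      simp only [h1, sum_Mt_left]
    · -- an interior vertex
      have hA : A = {j'.castSucc, j'.succ} := by
        ext l
        simp only [A, Finset.mem_filter, Finset.mem_univ, true_and, Finset.mem_insert,
          Finset.mem_singleton, Fin.ext_iff, Fin.val_castSucc, Fin.val_succ]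
        omega
      rw [hA]
      have hne : j'.castSucc ≠ j'.succ := by simp [Fin.ext_iff]
      simp only [Finset.prod_pair hne]
      have h1 : ∀ g, Mt (Function.update w (Fin.castSucc j'.succ) g (Fin.castSucc j'.castSucc))
          (Function.update w (Fin.castSucc j'.succ) g (Fin.succ j'.castSucc)) *
          Mt (Function.update w (Fin.castSucc j'.succ) g (Fin.castSucc j'.succ))
          (Function.update w (Fin.castSucc j'.succ) g (Fin.succ j'.succ)) =
          Mt (w (Fin.castSucc j'.castSucc)) g * Mt g (w (Fin.succ j'.succ)) := by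
        intro g
        have e1 : (Fin.succ j'.castSucc : Fin (n + 2)) = Fin.castSucc j'.succ := by
          simp [Fin.ext_iff]
        rw [e1, Function.update_self, Function.update_of_ne (by simp [Fin.ext_iff]),
          Function.update_of_ne (by simp [Fin.ext_iff])]
      simp only [h1, sum_Mt_mul]
  · -- the last vertex
    have hA : A = {Fin.last n} := by
      ext l
      simp only [A, Finset.mem_filter, Finset.mem_univ, true_and, Finset.mem_singleton,
        Fin.ext_iff, Fin.val_castSucc, Fin.val_succ, Fin.val_last]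
      omega
    rw [hA]
    simp only [Finset.prod_singleton]
    have h1 : ∀ g, Mt (Function.update w (Fin.last (n + 1)) g (Fin.castSucc (Fin.last n)))
        (Function.update w (Fin.last (n + 1)) g (Fin.succ (Fin.last n))) =
        Mt (w (Fin.castSucc (Fin.last n))) g := by
      intro g
      rw [Function.update_of_ne (by simp [Fin.ext_iff])]
      congr 1
      rw [Fin.succ_last, Function.update_self]
    simp only [h1, sum_Mt_right]

theorem sum_Pw_insertNth {n : ℕ} (i : Fin (n + 2)) (w : Fin (n + 1) → Gr) :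
    ∑ g : Gr, Pw (i.insertNth g w : Fin (n + 2) → Gr) = 0 := by
  have h := sum_Pw_update i (i.insertNth (0 : Gr) w : Fin (n + 2) → Gr)
  simpa only [Fin.update_insertNth] using h

/-- The sum of a product of a transfer matrix. -/
theorem sum_chain {R : Type} [CommRing R] {n : ℕ} (B : Fin n → Gr → Gr → R) (k : Fin n → R)
    (hB : ∀ l u, ∑ g : Gr, B l u g = k l) (g0 : Gr) :
    ∑ v : Fin n → Gr, chainProd B (Fin.cons g0 v) = ∏ l, k l := by
  induction n generalizing g0 with
  | zero => simp [chainProd]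
  | succ n ih =>
    rw [← (Fin.consEquiv fun _ : Fin (n + 1) => Gr).sum_comp, Fintype.sum_prod_type]
    have h1 : ∀ (x : Gr) (v : Fin n → Gr),
        chainProd B (Fin.cons g0 ((Fin.consEquiv fun _ : Fin (n + 1) => Gr) (x, v))) =
          B 0 g0 x * chainProd (fun l => B l.succ) (Fin.cons x v) := by
      intro x v
      rw [chainProd_cons]
      rfl
    simp only [h1, ← Finset.mul_sum]
    simp only [ih (fun l => B l.succ) (fun l => k l.succ) (fun l => hB l.succ)]
    rw [← Finset.sum_mul, hB, Fin.prod_univ_succ]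

/-- the additive functions of the cocycles `t₁ ^ a t₂ ^ (n - a)`. -/
def Af {n : ℕ} (a : ℕ) (l : Fin n) (u v : Gr) : ZMod 2 :=
  if (l : ℕ) < a then u.1 + v.1 else u.2 + v.2

theorem Af_add {n : ℕ} (a : ℕ) (l : Fin n) (u v z : Gr) :
    Af a l u v + Af a l v z = Af a l u z := by
  have h : ∀ x y z : ZMod 2, x + y + (y + z) = x + z := by decide
  unfold Af
  split_ifs
  · exact h _ _ _
  · exact h _ _ _

/-- the cocycles -/
def Tw (n a : ℕ) (w : Fin (n + 1) → Gr) : ZMod 2 := chainProd (Af a) w

theorem Tw_add (n a : ℕ) (g : Gr) (w : Fin (n + 1) → Gr) : Tw n a (fun l => g + w l) = Tw n a w := by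
  have h : ∀ x y z : ZMod 2, x + y + (x + z) = y + z := by decide
  unfold Tw chainProd Af
  refine Finset.prod_congr rfl fun l _ => ?_
  simp only [Prod.fst_add, Prod.snd_add, h]

theorem sum_Mt_Af {n : ℕ} (a : ℕ) (l : Fin n) (u : Gr) :
    ∑ g : Gr, C (Af a l u g) * Mt u g = if (l : ℕ) < a then X else 1 := by
  have h : ∀ u : Gr, (∑ g : Gr, (u.1 + g.1) * (1 + u.2 + g.2) = 1) ∧
      (∑ g : Gr, (u.1 + g.1) * (1 + u.1 + g.1) = 0) ∧
      (∑ g : Gr, (u.2 + g.2) * (1 + u.2 + g.2) = 0) ∧
      ∑ g : Gr, (u.2 + g.2) * (1 + u.1 + g.1) = 1 := by decide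
  have h1 : ∀ A : Gr → ZMod 2, ∑ g : Gr, C (A g) * Mt u g =
      C (∑ g : Gr, A g * (1 + u.2 + g.2)) * X + C (∑ g : Gr, A g * (1 + u.1 + g.1)) := by
    intro A
    unfold Mt
    rw [map_sum, map_sum, Finset.sum_mul, ← Finset.sum_add_distrib]
    refine Finset.sum_congr rfl fun g _ => ?_
    simp only [map_mul]
    ring
  unfold Af
  split_ifs with hl
  · rw [h1 fun g => u.1 + g.1, (h u).1, (h u).2.1]
    simp
  · rw [h1 fun g => u.2 + g.2, (h u).2.2.1, (h u).2.2.2]
    simp

/-- The pairing of the cycles with the cocycles. -/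
theorem sum_Pw_Tw {n a : ℕ} (ha : a ≤ n) :
    ∑ v : Fin n → Gr, C (Tw n a (Fin.cons 0 v)) * Pw (Fin.cons 0 v : Fin (n + 1) → Gr) =
      (X : (ZMod 2)[X]) ^ a := by
  have h1 : ∀ v : Fin n → Gr, C (Tw n a (Fin.cons 0 v)) * Pw (Fin.cons 0 v : Fin (n + 1) → Gr) =
      chainProd (fun l u g => C (Af a l u g) * Mt u g) (Fin.cons 0 v) := by
    intro v
    unfold Tw Pw chainProd
    rw [map_prod, ← Finset.prod_mul_distrib]
  simp only [h1]
  rw [sum_chain _ (fun l : Fin n => if (l : ℕ) < a then X else 1) (fun l u => sum_Mt_Af a l u) 0,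
    Finset.prod_ite]
  simp only [Finset.prod_const, one_pow, mul_one]
  congr 1
  rw [Fin.card_filter_val_lt]
  exact min_eq_right ha

end Pool.Agent.T6.H39.TN
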