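import Mathlib

/-!
# Singular cohomology with coefficients in `ℤ/2`

The definitions used in the statement of the result.
-/

set_option autoImplicit false

open Set Topology
open scoped Cardinal

namespace Pool.Agent.T6.H39.TN.Singular

/-- The singular `n`-simplices of the space `M`: the continuous maps from the standard `n`-simplex
to `M`. -/
def Sing (M : Type) [TopologicalSpace M] (n : ℕ) : Type := C(stdSimplex ℝ (Fin (n + 1)), M)

/-- The inclusion of the `i`-th face (opposite to the `i`-th vertex) of the standard
`(n + 1)`-simplex. -/
noncomputable def faceMap (n : ℕ) (i : Fin (n + 2)) :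
    C(stdSimplex ℝ (Fin (n + 1)), stdSimplex ℝ (Fin (n + 2))) :=
  ⟨stdSimplex.map i.succAbove, stdSimplex.continuous_map _⟩

/-- The `i`-th face of a singular `(n + 1)`-simplex. -/
noncomputable def Sing.face {M : Type} [TopologicalSpace M] {n : ℕ} (σ : Sing M (n + 1))
    (i : Fin (n + 2)) : Sing M n :=
  ContinuousMap.comp σ (faceMap n i)

/-- The singular `n`-cochains of the space `M` with coefficients in `ℤ/2`: the functions on the set
of all singular `n`-simplices of `M`. -/
def Cochain (M : Type) [TopologicalSpace M] (n : ℕ) : Type := Sing M n → ZMod 2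

/-- Pointwise addition of cochains. -/
instance (M : Type) [TopologicalSpace M] (n : ℕ) : AddCommGroup (Cochain M n) :=
  Pi.addCommGroup

/-- Pointwise multiplication by scalars. -/
instance (M : Type) [TopologicalSpace M] (n : ℕ) : Module (ZMod 2) (Cochain M n) :=
  Pi.module (Sing M n) (fun _ => ZMod 2) (ZMod 2)

/-- The coboundary: `(δ f)(σ)` is the sum of the values of `f` on the faces of `σ`. -/
noncomputable def coboundary (M : Type) [TopologicalSpace M] (n : ℕ) :
    Cochain M n →ₗ[ZMod 2] Cochain M (n + 1) where
  toFun f := fun σ => ∑ i : Fin (n + 2), f (σ.face i)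
  map_add' f g := by
    funext σ
    exact Finset.sum_add_distrib
  map_smul' c f := by
    funext σ
    exact (Finset.mul_sum _ _ _).symm

/-- The cocycles of degree `n`. -/
noncomputable def cocycles (M : Type) [TopologicalSpace M] (n : ℕ) :
    Submodule (ZMod 2) (Cochain M n) :=
  LinearMap.ker (coboundary M n)

/-- The coboundaries of degree `n`. -/
noncomputable def coboundaries (M : Type) [TopologicalSpace M] :
    (n : ℕ) → Submodule (ZMod 2) (Cochain M n)
  | 0 => ⊥
  | n + 1 => LinearMap.range (coboundary M n)

/-- The coboundaries of degree `n` as a subspace of the space of the cocycles. -/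
noncomputable def exact (M : Type) [TopologicalSpace M] (n : ℕ) :
    Submodule (ZMod 2) (cocycles M n) :=
  (coboundaries M n).submoduleOf (cocycles M n)

/-- The singular cohomology `H^n(M; ℤ/2)`: cocycles modulo coboundaries. -/
def Cohomology (M : Type) [TopologicalSpace M] (n : ℕ) : Type := cocycles M n ⧸ exact M n

/-- Addition in `H^n(M; ℤ/2)`. -/
noncomputable instance (M : Type) [TopologicalSpace M] (n : ℕ) : AddCommGroup (Cohomology M n) :=
  Submodule.Quotient.addCommGroup (exact M n)

/-- The vector space structure of `H^n(M; ℤ/2)`. -/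
noncomputable instance (M : Type) [TopologicalSpace M] (n : ℕ) :
    Module (ZMod 2) (Cohomology M n) :=
  Submodule.Quotient.module (exact M n)

/-- `dim H(M; ℤ/2) = ∑_n dim H^n(M; ℤ/2)`, as a cardinal number. -/
noncomputable def totalBetti (M : Type) [TopologicalSpace M] : Cardinal.{0} :=
  Cardinal.sum fun n : ℕ => Module.rank (ZMod 2) (Cohomology M n)

end Pool.Agent.T6.H39.TN.Singular
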