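import Pool.Agent.T6.H39.TN.Coh
import Pool.Agent.T6.H39.TN.Comb

/-!
# Lower bound for the mod 2 cohomology of a quotient by `(ℤ/2)²`
-/

set_option autoImplicit false

open Set Topology

namespace Pool.Agent.T6.H39.TN

instance (n : ℕ) : ContractibleSpace (Simplex n) :=
  (convex_stdSimplex ℝ (Fin (n + 1))).contractibleSpace ⟨_, single_mem_stdSimplex ℝ 0⟩

instance (n : ℕ) : LocallyPathConnectedSpace (Simplex n) :=
  (convex_stdSimplex ℝ (Fin (n + 1))).locallyPathConnectedSpace

variable {X M : Type} [TopologicalSpace X] [TopologicalSpace M] [AddAction Gr X] {q : C(X, M)}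

theorem exists_lift (hq : IsAddQuotientCoveringMap q Gr) {n : ℕ} (σ : C(Simplex n, M)) :
    ∃ τ : C(Simplex n, X), q.comp τ = σ := by
  let a0 : Simplex n := stdSimplex.vertex 0
  obtain ⟨e0, he0⟩ := hq.surjective (σ a0)
  obtain ⟨τ, ⟨-, hτ⟩, -⟩ := hq.isCoveringMap.existsUnique_continuousMap_lifts σ a0 e0 he0
  exact ⟨τ, ContinuousMap.ext fun p => congrFun hτ p⟩

theorem lift_unique (hq : IsAddQuotientCoveringMap q Gr) {n : ℕ} {τ τ' : C(Simplex n, X)}
    (h : q.comp τ = q.comp τ') : ∃ g : Gr, ∀ p, τ' p = g +ᵥ τ p := by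
  let a0 : Simplex n := stdSimplex.vertex 0
  have h1 : q (τ' a0) = q (τ a0) := (DFunLike.congr_fun h a0).symm
  obtain ⟨g, hg⟩ := (hq.apply_eq_iff_mem_orbit).1 h1
  have hc : Continuous fun x : X => g +ᵥ x := hq.toContinuousConstVAdd.continuous_const_vadd g
  let τ'' : C(Simplex n, X) := ⟨fun p => g +ᵥ τ p, hc.comp τ.continuous⟩
  have hq' : ∀ x : X, q (g +ᵥ x) = q x := fun x => hq.map_vadd g
  obtain ⟨τ0, -, huniq⟩ := hq.isCoveringMap.existsUnique_continuousMap_lifts (q.comp τ') a0 (τ' a0) rfl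
  have e1 : τ' = τ0 := huniq τ' ⟨rfl, rfl⟩
  have e2 : τ'' = τ0 := huniq τ'' ⟨hg, by
    funext p
    change q (g +ᵥ τ p) = q (τ' p)
    rw [hq']
    exact DFunLike.congr_fun h p⟩
  refine ⟨g, fun p => ?_⟩
  have e3 : τ' = τ'' := e1.trans e2.symm
  exact DFunLike.congr_fun e3 p

/-- The cochain given by a function of the labels of the vertices of a lift. -/
noncomputable def labelCochain (hq : IsAddQuotientCoveringMap q Gr) (ε : X → Gr) {n : ℕ}
    (F : (Fin (n + 1) → Gr) → ZMod 2) : Cochain M n :=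
  fun σ => F fun l => ε ((exists_lift hq σ).choose (stdSimplex.vertex l))

theorem labelCochain_comp (hq : IsAddQuotientCoveringMap q Gr) {ε : X → Gr}
    (hε : ∀ g x, ε (g +ᵥ x) = g + ε x) {n : ℕ} {F : (Fin (n + 1) → Gr) → ZMod 2}
    (hF : ∀ g w, F (fun l => g + w l) = F w) (τ : C(Simplex n, X)) :
    labelCochain hq ε F (q.comp τ) = F fun l => ε (τ (stdSimplex.vertex l)) := by
  have h1 := (exists_lift hq (q.comp τ)).choose_spec
  obtain ⟨g, hg⟩ := lift_unique hq h1.symm
  unfold labelCochain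
  simp only [hg, hε, hF]

theorem face_vertex {n : ℕ} (i : Fin (n + 2)) (l : Fin (n + 1)) :
    face n i (stdSimplex.vertex l) = stdSimplex.vertex (i.succAbove l) :=
  stdSimplex.map_vertex _ _

theorem coboundary_labelCochain (hq : IsAddQuotientCoveringMap q Gr) {ε : X → Gr}
    (hε : ∀ g x, ε (g +ᵥ x) = g + ε x) {n : ℕ} {F : (Fin (n + 1) → Gr) → ZMod 2}
    (hF : ∀ g w, F (fun l => g + w l) = F w)
    (hF0 : ∀ w : Fin (n + 2) → Gr, ∑ i : Fin (n + 2), F (w ∘ i.succAbove) = 0) :
    coboundary M n (labelCochain hq ε F) = 0 := by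
  funext σ
  obtain ⟨τ, rfl⟩ := exists_lift hq σ
  change ∑ i : Fin (n + 2), labelCochain hq ε F ((q.comp τ).comp (face n i)) = 0
  rw [← hF0 fun l => ε (τ (stdSimplex.vertex l))]
  refine Finset.sum_congr rfl fun i _ => ?_
  rw [ContinuousMap.comp_assoc, labelCochain_comp hq hε hF]
  simp only [ContinuousMap.comp_apply, face_vertex]
  rfl

/-- A family of singular simplices of `X` with labelled vertices. -/
structure Frames (N : ℕ) (q : C(X, M)) (ε : X → Gr) where
  /-- the simplex with the vertices `(I l, w l)` -/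
  S : ∀ {m : ℕ}, (Fin (m + 1) ↪ Fin (N + 1)) → (Fin (m + 1) → Gr) → C(Simplex m, X)
  face_eq : ∀ {m : ℕ} (I : Fin (m + 2) ↪ Fin (N + 1)) (w : Fin (m + 2) → Gr) (i : Fin (m + 2)),
    (S I w).comp (face m i) = S (i.succAboveEmb.trans I) (w ∘ i.succAbove)
  add_eq : ∀ {m : ℕ} (I : Fin (m + 1) ↪ Fin (N + 1)) (g : Gr) (w : Fin (m + 1) → Gr),
    q.comp (S I fun l => g + w l) = q.comp (S I w)
  label_eq : ∀ {m : ℕ} (I : Fin (m + 1) ↪ Fin (N + 1)) (w : Fin (m + 1) → Gr) (l : Fin (m + 1)),
    ε (S I w (stdSimplex.vertex l)) = w l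

/-- The functional on cochains. -/
noncomputable def functional {N : ℕ} {ε : X → Gr} (Φ : Frames N q ε) {n : ℕ}
    (I : Fin (n + 1) ↪ Fin (N + 1)) : Cochain M n →ₗ[ZMod 2] Polynomial (ZMod 2) where
  toFun f := ∑ v : Fin n → Gr, f (q.comp (Φ.S I (Fin.cons 0 v))) • Pw (Fin.cons 0 v)
  map_add' f g := by
    simp [add_smul, Finset.sum_add_distrib]
  map_smul' c f := by
    simp [mul_smul, Finset.smul_sum]

/-- The equivalence `v = g + (0, v')`. -/
def shiftEquiv (m : ℕ) : Gr × (Fin m → Gr) ≃ (Fin (m + 1) → Gr) where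
  toFun x := fun l => x.1 + (Fin.cons 0 x.2 : Fin (m + 1) → Gr) l
  invFun v := (v 0, fun l => v l.succ - v 0)
  left_inv x := by
    obtain ⟨g, v⟩ := x
    ext l <;> simp
  right_inv v := by
    funext l
    refine Fin.cases ?_ (fun l => ?_) l
    · simp
    · simp

theorem functional_coboundary {N : ℕ} {ε : X → Gr} (Φ : Frames N q ε) {n : ℕ}
    (I : Fin (n + 2) ↪ Fin (N + 1)) (f : Cochain M n) :
    functional Φ I (coboundary M n f) = 0 := by
  change ∑ v : Fin (n + 1) → Gr,
    (∑ i : Fin (n + 2), f ((q.comp (Φ.S I (Fin.cons 0 v))).comp (face n i))) •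
      Pw (Fin.cons 0 v : Fin (n + 2) → Gr) = 0
  simp only [Finset.sum_smul, ContinuousMap.comp_assoc, Φ.face_eq]
  rw [Finset.sum_comm]
  refine Finset.sum_eq_zero fun i _ => ?_
  refine Fin.cases ?_ (fun j => ?_) i
  · -- the face opposite to the vertex `0`
    have h0 : ∀ v : Fin (n + 1) → Gr,
        (Fin.cons 0 v : Fin (n + 2) → Gr) ∘ (0 : Fin (n + 2)).succAbove = v := by
      intro v
      funext l
      simp
    simp only [h0]
    rw [← (shiftEquiv n).sum_comp, Fintype.sum_prod_type, Finset.sum_comm]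
    refine Finset.sum_eq_zero fun v _ => ?_
    have h1 : ∀ g : Gr, q.comp (Φ.S ((0 : Fin (n + 2)).succAboveEmb.trans I)
        (shiftEquiv n (g, v))) = q.comp (Φ.S ((0 : Fin (n + 2)).succAboveEmb.trans I)
          (Fin.cons 0 v)) := fun g => Φ.add_eq _ g _
    simp only [h1, ← Finset.smul_sum]
    have h2 : ∀ g : Gr, Pw (Fin.cons 0 (shiftEquiv n (g, v)) : Fin (n + 2) → Gr) =
        Pw ((0 : Fin (n + 2)).insertNth g (Fin.cons 0 v) : Fin (n + 2) → Gr) := by
      intro g
      have hg : g + g = 0 := by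
        revert g
        decide
      rw [← Pw_add g (Fin.cons 0 (shiftEquiv n (g, v)) : Fin (n + 2) → Gr)]
      congr 1
      funext l
      rw [Fin.insertNth_zero']
      refine Fin.cases ?_ (fun l => ?_) l
      · simp
      · simp only [Fin.cons_succ, shiftEquiv, Equiv.coe_fn_mk]
        rw [← add_assoc, hg, zero_add]
    simp only [h2, sum_Pw_insertNth, smul_zero]
  · -- the other faces
    have h0 : ∀ v : Fin (n + 1) → Gr,
        (Fin.cons 0 v : Fin (n + 2) → Gr) ∘ j.succ.succAbove =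
          Fin.cons 0 (v ∘ j.succAbove) := by
      intro v
      cases n with
      | zero =>
        funext l
        have hl : l = 0 := Fin.ext (by omega)
        subst hl
        have hj : j = 0 := Fin.ext (by omega)
        subst hj
        rfl
      | succ n =>
        funext l
        refine Fin.cases ?_ (fun l => ?_) l
        · simp
        · simp
    simp only [h0]
    rw [← (Fin.insertNthEquiv (fun _ => Gr) j).sum_comp, Fintype.sum_prod_type, Finset.sum_comm]
    refine Finset.sum_eq_zero fun v _ => ?_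
    have h1 : ∀ g : Gr, (Fin.insertNthEquiv (fun _ => Gr) j (g, v)) ∘ j.succAbove = v := by
      intro g
      funext l
      simp
    simp only [h1, ← Finset.smul_sum]
    have h2 : ∀ g : Gr, (Fin.cons 0 (Fin.insertNthEquiv (fun _ => Gr) j (g, v)) :
        Fin (n + 2) → Gr) = j.succ.insertNth g (Fin.cons 0 v) := by
      intro g
      exact (Fin.insertNth_succ_cons j g (0 : Gr) v).symm
    simp only [h2, sum_Pw_insertNth, smul_zero]

/-- **The lower bound.** -/
theorem le_rank_of_frames (hq : IsAddQuotientCoveringMap q Gr) {ε : X → Gr}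
    (hε : ∀ g x, ε (g +ᵥ x) = g + ε x) {N : ℕ} (Φ : Frames N q ε) (n : ℕ) (hn : n ≤ N) :
    ((n + 1 : ℕ) : Cardinal.{0}) ≤ Module.rank (ZMod 2) (Cohomology M n) := by
  let I : Fin (n + 1) ↪ Fin (N + 1) := (Fin.castLEEmb (by omega))
  refine le_rank (functional Φ I) ?_ (fun a : Fin (n + 1) => labelCochain hq ε (Tw n a)) ?_ ?_
  · intro f hf
    cases n with
    | zero =>
      have : f = 0 := hf
      rw [this, map_zero]
    | succ n =>
      obtain ⟨g, rfl⟩ := hf
      exact functional_coboundary Φ I g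
  · intro a
    exact coboundary_labelCochain hq hε (Tw_add n a) fun w => sum_faces (Af a) (Af_add a) w
  · have h1 : (fun a : Fin (n + 1) => functional Φ I (labelCochain hq ε (Tw n a))) =
        fun a : Fin (n + 1) => (Polynomial.X : Polynomial (ZMod 2)) ^ (a : ℕ) := by
      funext a
      rw [← sum_Pw_Tw (n := n) (a := a) (by omega)]
      change ∑ v : Fin n → Gr, labelCochain hq ε (Tw n a) (q.comp (Φ.S I (Fin.cons 0 v))) •
        Pw (Fin.cons 0 v) = _
      refine Finset.sum_congr rfl fun v _ => ?_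
      rw [labelCochain_comp hq hε (Tw_add n a), Polynomial.smul_eq_C_mul]
      simp only [Φ.label_eq]
    rw [h1]
    have h2 := (Polynomial.basisMonomials (ZMod 2)).linearIndependent
    have h3 := h2.comp (fun a : Fin (n + 1) => (a : ℕ)) Fin.val_injective
    have h4 : (⇑(Polynomial.basisMonomials (ZMod 2)) ∘ fun a : Fin (n + 1) => (a : ℕ)) =
        fun a : Fin (n + 1) => (Polynomial.X : Polynomial (ZMod 2)) ^ (a : ℕ) := by
      funext a
      simp [Polynomial.coe_basisMonomials, Polynomial.X_pow_eq_monomial]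
    rw [h4] at h3
    exact h3

end Pool.Agent.T6.H39.TN
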