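import Mathlib

/-!
# The Euclidean space of tensors of degree three
-/

set_option autoImplicit false

open Set Topology TensorProduct
open scoped RealInnerProductSpace ContDiff

namespace Pool.Agent.T6.H39.TN

/-- Euclidean space of dimension `N + 1`. -/
abbrev Ve (N : ℕ) : Type := EuclideanSpace ℝ (Fin (N + 1))

/-- The space `V ⊗ (V ⊗ V)` of tensors, where `V` is the Euclidean space of dimension `N + 1`. -/
def Te (N : ℕ) : Type := Ve N ⊗[ℝ] (Ve N ⊗[ℝ] Ve N)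

/-- The Euclidean norm on tensors. -/
noncomputable instance (N : ℕ) : NormedAddCommGroup (Te N) :=
  inferInstanceAs (NormedAddCommGroup (Ve N ⊗[ℝ] (Ve N ⊗[ℝ] Ve N)))

/-- The Euclidean inner product on tensors. -/
noncomputable instance (N : ℕ) : InnerProductSpace ℝ (Te N) :=
  inferInstanceAs (InnerProductSpace ℝ (Ve N ⊗[ℝ] (Ve N ⊗[ℝ] Ve N)))

instance (N : ℕ) : FiniteDimensional ℝ (Te N) :=
  inferInstanceAs (FiniteDimensional ℝ (Ve N ⊗[ℝ] (Ve N ⊗[ℝ] Ve N)))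

variable {N : ℕ}

/-- The decomposable tensor `x ⊗ y ⊗ z`. -/
def tri (x y z : Ve N) : Te N := x ⊗ₜ[ℝ] (y ⊗ₜ[ℝ] z)

theorem inner_tri (x y z a b c : Ve N) :
    ⟪tri x y z, tri a b c⟫ = ⟪x, a⟫ * (⟪y, b⟫ * ⟪z, c⟫) := by
  have h : (⟪(x ⊗ₜ[ℝ] (y ⊗ₜ[ℝ] z) : Ve N ⊗[ℝ] (Ve N ⊗[ℝ] Ve N)), a ⊗ₜ[ℝ] (b ⊗ₜ[ℝ] c)⟫ : ℝ) =
      ⟪x, a⟫ * (⟪y, b⟫ * ⟪z, c⟫) := by
    rw [TensorProduct.inner_tmul, TensorProduct.inner_tmul]
  exact h

theorem tri_add₁ (x x' y z : Ve N) : tri (x + x') y z = tri x y z + tri x' y z :=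
  TensorProduct.add_tmul x x' _

theorem tri_smul₁ (r : ℝ) (x y z : Ve N) : tri (r • x) y z = r • tri x y z :=
  (TensorProduct.smul_tmul' r x (y ⊗ₜ[ℝ] z)).symm

theorem tri_add₂ (x y y' z : Ve N) : tri x (y + y') z = tri x y z + tri x y' z := by
  have h : (x ⊗ₜ[ℝ] ((y + y') ⊗ₜ[ℝ] z) : Ve N ⊗[ℝ] (Ve N ⊗[ℝ] Ve N)) =
      x ⊗ₜ[ℝ] (y ⊗ₜ[ℝ] z) + x ⊗ₜ[ℝ] (y' ⊗ₜ[ℝ] z) := by
    rw [TensorProduct.add_tmul, TensorProduct.tmul_add]
  exact h

theorem tri_smul₂ (r : ℝ) (x y z : Ve N) : tri x (r • y) z = r • tri x y z := by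
  have h : (x ⊗ₜ[ℝ] ((r • y) ⊗ₜ[ℝ] z) : Ve N ⊗[ℝ] (Ve N ⊗[ℝ] Ve N)) =
      r • (x ⊗ₜ[ℝ] (y ⊗ₜ[ℝ] z)) := by
    rw [← TensorProduct.smul_tmul', TensorProduct.tmul_smul]
  exact h

theorem tri_add₃ (x y z z' : Ve N) : tri x y (z + z') = tri x y z + tri x y z' := by
  have h : (x ⊗ₜ[ℝ] (y ⊗ₜ[ℝ] (z + z')) : Ve N ⊗[ℝ] (Ve N ⊗[ℝ] Ve N)) =
      x ⊗ₜ[ℝ] (y ⊗ₜ[ℝ] z) + x ⊗ₜ[ℝ] (y ⊗ₜ[ℝ] z') := by
    rw [TensorProduct.tmul_add, TensorProduct.tmul_add]
  exact h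

theorem tri_smul₃ (r : ℝ) (x y z : Ve N) : tri x y (r • z) = r • tri x y z := by
  have h : (x ⊗ₜ[ℝ] (y ⊗ₜ[ℝ] (r • z)) : Ve N ⊗[ℝ] (Ve N ⊗[ℝ] Ve N)) =
      r • (x ⊗ₜ[ℝ] (y ⊗ₜ[ℝ] z)) := by
    rw [TensorProduct.tmul_smul, TensorProduct.tmul_smul]
  exact h

/-- the trilinear map `tri`, with two variables fixed -/
noncomputable def triA (x y : Ve N) : Ve N →L[ℝ] Te N :=
  LinearMap.toContinuousLinearMap
    { toFun := fun z => tri x y z
      map_add' := tri_add₃ x y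
      map_smul' := fun r z => tri_smul₃ r x y z }

@[simp] theorem triA_apply (x y z : Ve N) : triA x y z = tri x y z := rfl

/-- the trilinear map `tri`, with one variable fixed -/
noncomputable def triB (x : Ve N) : Ve N →L[ℝ] Ve N →L[ℝ] Te N :=
  LinearMap.toContinuousLinearMap
    { toFun := fun y => triA x y
      map_add' := fun y y' => by
        ext1 z
        exact tri_add₂ x y y' z
      map_smul' := fun r y => by
        ext1 z
        exact tri_smul₂ r x y z }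

@[simp] theorem triB_apply (x y z : Ve N) : triB x y z = tri x y z := rfl

/-- the trilinear map `tri` -/
noncomputable def triC (N : ℕ) : Ve N →L[ℝ] Ve N →L[ℝ] Ve N →L[ℝ] Te N :=
  LinearMap.toContinuousLinearMap
    { toFun := fun x => triB x
      map_add' := fun x x' => by
        ext1 y
        ext1 z
        exact tri_add₁ x x' y z
      map_smul' := fun r x => by
        ext1 y
        ext1 z
        exact tri_smul₁ r x y z }

@[simp] theorem triC_apply (x y z : Ve N) : triC N x y z = tri x y z := rfl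

theorem contDiff_tri {F : Type*} [NormedAddCommGroup F] [NormedSpace ℝ F] {f g h : F → Ve N}
    (hf : ContDiff ℝ ∞ f) (hg : ContDiff ℝ ∞ g) (hh : ContDiff ℝ ∞ h) :
    ContDiff ℝ ∞ fun t => tri (f t) (g t) (h t) := by
  have h0 : ContDiff ℝ ∞ fun x : Ve N => triC N x :=
    ContinuousLinearMap.contDiff (𝕜 := ℝ) (E := Ve N) (F := Ve N →L[ℝ] Ve N →L[ℝ] Te N) (triC N)
  have h1 : ContDiff ℝ ∞ fun t => triC N (f t) := h0.comp hf
  exact (h1.clm_apply hg).clm_apply hh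

theorem continuous_tri : Continuous fun p : Ve N × Ve N × Ve N => tri p.1 p.2.1 p.2.2 := by
  have h1 : Continuous fun p : Ve N × Ve N × Ve N => triC N p.1 :=
    (triC N).continuous.comp continuous_fst
  exact (h1.clm_apply (continuous_fst.comp continuous_snd)).clm_apply
    (continuous_snd.comp continuous_snd)

/-- The tensor product of three linear isometries. -/
noncomputable def triIso (f g h : Ve N ≃ₗᵢ[ℝ] Ve N) : Te N ≃ₗᵢ[ℝ] Te N :=
  TensorProduct.congrIsometry f (TensorProduct.congrIsometry g h)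

theorem triIso_tri (f g h : Ve N ≃ₗᵢ[ℝ] Ve N) (a b c : Ve N) :
    triIso f g h (tri a b c) = tri (f a) (g b) (h c) := by
  have H : TensorProduct.congrIsometry f (TensorProduct.congrIsometry g h)
      (a ⊗ₜ[ℝ] (b ⊗ₜ[ℝ] c)) = (f a) ⊗ₜ[ℝ] ((g b) ⊗ₜ[ℝ] (h c)) := by
    rw [TensorProduct.congrIsometry_apply]
    simp
  exact H

end Pool.Agent.T6.H39.TN
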