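import Pool.Agent.T6.H39.TN.Low
import Pool.Agent.T6.H39.TN.Ten

/-!
# The covering of the unit decomposable tensors by a product of three spheres
-/

set_option autoImplicit false

open Set Topology
open scoped RealInnerProductSpace

namespace Pool.Agent.T6.H39.TN

/-- The unit decomposable tensors. -/
def Seg (N : ℕ) : Set (Te N) :=
  {T | ∃ x y z : Ve N, ‖x‖ = 1 ∧ ‖y‖ = 1 ∧ ‖z‖ = 1 ∧ T = tri x y z}

/-- the unit sphere -/
abbrev Sp (N : ℕ) : Type := Metric.sphere (0 : Ve N) 1

/-- The product of three spheres. -/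
abbrev Xs (N : ℕ) : Type := Sp N × Sp N × Sp N

/-- the sign of an element of `ℤ/2` -/
noncomputable def sg (a : ZMod 2) : ℝ := if a = 0 then 1 else -1

theorem sg_zero : sg 0 = 1 := by simp [sg]

theorem sg_one : sg 1 = -1 := by simp [sg]

theorem zmod_cases (a : ZMod 2) : a = 0 ∨ a = 1 := by
  revert a
  decide

theorem sg_add (a b : ZMod 2) : sg (a + b) = sg a * sg b := by
  rcases zmod_cases a with rfl | rfl <;> rcases zmod_cases b with rfl | rfl
  · simp [sg_zero]
  · simp [sg_zero]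
  · simp [sg_zero]
  · have : (1 + 1 : ZMod 2) = 0 := by decide
    rw [this, sg_zero, sg_one]
    norm_num

theorem sg_sq (a : ZMod 2) : sg a * sg a = 1 := by
  rcases zmod_cases a with rfl | rfl
  · simp [sg_zero]
  · simp [sg_one]

theorem abs_sg (a : ZMod 2) : |sg a| = 1 := by
  rcases zmod_cases a with rfl | rfl
  · simp [sg_zero]
  · simp [sg_one]

theorem sg_ne (a : ZMod 2) : sg a ≠ 0 := by
  intro h
  have := sg_sq a
  rw [h] at this
  norm_num at this

variable {N : ℕ}

theorem norm_sp (x : Sp N) : ‖(x : Ve N)‖ = 1 := by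
  simp

/-- change the sign -/
noncomputable def sgn (a : ZMod 2) (x : Sp N) : Sp N :=
  ⟨sg a • (x : Ve N), by simp [norm_smul, abs_sg]⟩

@[simp] theorem sgn_coe (a : ZMod 2) (x : Sp N) : (sgn a x : Ve N) = sg a • (x : Ve N) := rfl

theorem sgn_zero (x : Sp N) : sgn 0 x = x := by
  apply Subtype.ext
  simp [sg_zero]

theorem sgn_add (a b : ZMod 2) (x : Sp N) : sgn (a + b) x = sgn a (sgn b x) := by
  apply Subtype.ext
  simp [sg_add, smul_smul]

theorem continuous_sgn (a : ZMod 2) : Continuous (sgn a : Sp N → Sp N) :=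
  (continuous_subtype_val.const_smul (sg a)).subtype_mk _

noncomputable instance : AddAction Gr (Xs N) where
  vadd g x := (sgn g.1 x.1, sgn g.2 x.2.1, sgn (g.1 + g.2) x.2.2)
  zero_vadd x := by
    change (sgn 0 x.1, sgn 0 x.2.1, sgn (0 + 0) x.2.2) = x
    rw [add_zero, sgn_zero, sgn_zero, sgn_zero]
  add_vadd g h x := by
    change (sgn (g.1 + h.1) x.1, sgn (g.2 + h.2) x.2.1, sgn (g.1 + h.1 + (g.2 + h.2)) x.2.2) =
      (sgn g.1 (sgn h.1 x.1), sgn g.2 (sgn h.2 x.2.1), sgn (g.1 + g.2) (sgn (h.1 + h.2) x.2.2))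
    rw [sgn_add, sgn_add, ← sgn_add (g.1 + g.2), add_add_add_comm]

theorem vadd_def (g : Gr) (x : Xs N) :
    g +ᵥ x = (sgn g.1 x.1, sgn g.2 x.2.1, sgn (g.1 + g.2) x.2.2) := rfl

/-- The covering map. -/
noncomputable def qmap (N : ℕ) : C(Xs N, Seg N) :=
  ⟨fun x => ⟨tri (x.1 : Ve N) (x.2.1 : Ve N) (x.2.2 : Ve N),
    x.1, x.2.1, x.2.2, norm_sp _, norm_sp _, norm_sp _, rfl⟩, by
    refine Continuous.subtype_mk ?_ _
    exact continuous_tri.comp ((continuous_subtype_val.comp continuous_fst).prodMk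
      ((continuous_subtype_val.comp (continuous_fst.comp continuous_snd)).prodMk
        (continuous_subtype_val.comp (continuous_snd.comp continuous_snd))))⟩

theorem qmap_coe (x : Xs N) :
    (qmap N x : Te N) = tri (x.1 : Ve N) (x.2.1 : Ve N) (x.2.2 : Ve N) := rfl

theorem eq_sg_smul {x x' : Ve N} (hx : ‖x‖ = 1) (hx' : ‖x'‖ = 1) {a : ZMod 2}
    (h : ⟪x, x'⟫ = sg a) : x' = sg a • x := by
  rcases zmod_cases a with rfl | rfl
  · rw [sg_zero] at h ⊢
    rw [one_smul]
    exact ((inner_eq_one_iff_of_norm_eq_one hx hx').1 h).symm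
  · rw [sg_one] at h ⊢
    rw [neg_smul, one_smul]
    have h1 : ⟪x, -x'⟫ = 1 := by
      rw [inner_neg_right, h]
      norm_num
    have h2 := (inner_eq_one_iff_of_norm_eq_one hx (by rw [norm_neg]; exact hx')).1 h1
    rw [h2, neg_neg]

theorem exists_sg {r : ℝ} (h : |r| = 1) : ∃ a, r = sg a := by
  rcases eq_or_eq_neg_of_abs_eq h with h | h
  · exact ⟨0, by rw [h, sg_zero]⟩
  · exact ⟨1, by rw [h, sg_one]⟩

theorem abs_inner_le {x x' : Ve N} (hx : ‖x‖ = 1) (hx' : ‖x'‖ = 1) : |⟪x, x'⟫| ≤ 1 := by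
  have := abs_real_inner_le_norm x x'
  rwa [hx, hx', one_mul] at this

theorem abs_eq_one_of_mul {a b c : ℝ} (ha : |a| ≤ 1) (hb : |b| ≤ 1) (hc : |c| ≤ 1)
    (h : a * (b * c) = 1) : |a| = 1 ∧ |b| = 1 ∧ |c| = 1 := by
  have h1 : |a| * (|b| * |c|) = 1 := by
    rw [← abs_mul, ← abs_mul, h, abs_one]
  have ha0 := abs_nonneg a
  have hb0 := abs_nonneg b
  have hc0 := abs_nonneg c
  have hbc : |b| * |c| ≤ 1 := mul_le_one₀ hb hc0 hc
  have hac : |a| * |c| ≤ 1 := mul_le_one₀ ha hc0 hc
  have hab : |a| * |b| ≤ 1 := mul_le_one₀ ha hb0 hb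
  refine ⟨le_antisymm ha ?_, le_antisymm hb ?_, le_antisymm hc ?_⟩
  · calc (1 : ℝ) = |a| * (|b| * |c|) := h1.symm
      _ ≤ |a| * 1 := by gcongr
      _ = |a| := mul_one _
  · calc (1 : ℝ) = |b| * (|a| * |c|) := by rw [← h1]; ring
      _ ≤ |b| * 1 := by gcongr
      _ = |b| := mul_one _
  · calc (1 : ℝ) = |c| * (|a| * |b|) := by rw [← h1]; ring
      _ ≤ |c| * 1 := by gcongr
      _ = |c| := mul_one _

/-- The signs for which unit decomposable tensors agree. -/
theorem exists_signs {x y z x' y' z' : Ve N} (hx : ‖x‖ = 1) (hy : ‖y‖ = 1) (hz : ‖z‖ = 1)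
    (hx' : ‖x'‖ = 1) (hy' : ‖y'‖ = 1) (hz' : ‖z'‖ = 1)
    (h : tri x y z = tri x' y' z') :
    ∃ g : Gr, x' = sg g.1 • x ∧ y' = sg g.2 • y ∧ z' = sg (g.1 + g.2) • z := by
  have h1 : ⟪x, x'⟫ * (⟪y, y'⟫ * ⟪z, z'⟫) = 1 := by
    have h2 : ⟪tri x y z, tri x' y' z'⟫ = 1 := by
      rw [← h, inner_tri]
      simp [hx, hy, hz]
    rwa [inner_tri] at h2
  obtain ⟨ha, hb, hc⟩ := abs_eq_one_of_mul (abs_inner_le hx hx') (abs_inner_le hy hy')
    (abs_inner_le hz hz') h1
  obtain ⟨a, ha⟩ := exists_sg ha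
  obtain ⟨b, hb⟩ := exists_sg hb
  have hc' : ⟪z, z'⟫ = sg (a + b) := by
    rw [sg_add]
    rw [ha, hb] at h1
    calc ⟪z, z'⟫ = (sg a * sg a) * (sg b * sg b) * ⟪z, z'⟫ := by rw [sg_sq, sg_sq]; ring
      _ = sg a * sg b * (sg a * (sg b * ⟪z, z'⟫)) := by ring
      _ = sg a * sg b := by rw [h1, mul_one]
  exact ⟨(a, b), eq_sg_smul hx hx' ha, eq_sg_smul hy hy' hb, eq_sg_smul hz hz' hc'⟩

theorem tmul_signs (g : Gr) (x y z : Ve N) :
    tri (sg g.1 • x) (sg g.2 • y) (sg (g.1 + g.2) • z) = tri x y z := by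
  rw [tri_smul₁, tri_smul₂, tri_smul₃, smul_smul, smul_smul, sg_add]
  have : sg g.1 * sg g.2 * (sg g.1 * sg g.2) = 1 := by
    calc sg g.1 * sg g.2 * (sg g.1 * sg g.2) = (sg g.1 * sg g.1) * (sg g.2 * sg g.2) := by ring
      _ = 1 := by rw [sg_sq, sg_sq, one_mul]
  rw [this, one_smul]

theorem qmap_vadd (g : Gr) (x : Xs N) : qmap N (g +ᵥ x) = qmap N x := by
  apply Subtype.ext
  rw [qmap_coe, qmap_coe, vadd_def]
  exact tmul_signs g _ _ _

theorem isQuotientMap_qmap : IsQuotientMap (qmap N) := by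
  have hsurj : Function.Surjective (qmap N) := by
    rintro ⟨_, x, y, z, hx, hy, hz, rfl⟩
    exact ⟨(⟨x, by simpa using hx⟩, ⟨y, by simpa using hy⟩, ⟨z, by simpa using hz⟩), rfl⟩
  have hclosed : IsClosedMap (qmap N) := (qmap N).continuous.isClosedMap
  exact hclosed.isQuotientMap (qmap N).continuous hsurj

theorem dist_sgn (x : Sp N) {a : ZMod 2} {y : Sp N} (h1 : dist y x < 1) (h2 : dist (sgn a y) x < 1) :
    a = 0 := by
  rcases zmod_cases a with rfl | rfl
  · rfl
  · exfalso
    have h3 : dist (sgn 1 y) y < 2 := by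
      calc dist (sgn 1 y) y ≤ dist (sgn 1 y) x + dist x y := dist_triangle _ _ _
        _ < 1 + 1 := by
          rw [dist_comm x y]
          exact add_lt_add h2 h1
        _ = 2 := by norm_num
    rw [Subtype.dist_eq, sgn_coe, sg_one, dist_eq_norm] at h3
    have h4 : (-1 : ℝ) • (y : Ve N) - (y : Ve N) = (-2 : ℝ) • (y : Ve N) := by
      rw [show (-2 : ℝ) = -1 - 1 by norm_num, sub_smul, one_smul]
    rw [h4, norm_smul, norm_sp] at h3
    norm_num at h3

theorem isCovering : IsAddQuotientCoveringMap (qmap N) Gr where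
  toIsQuotientMap := isQuotientMap_qmap
  continuous_const_vadd g := by
    have : (fun x : Xs N => g +ᵥ x) = fun x => (sgn g.1 x.1, sgn g.2 x.2.1, sgn (g.1 + g.2) x.2.2) :=
      rfl
    rw [this]
    exact ((continuous_sgn _).comp continuous_fst).prodMk
      (((continuous_sgn _).comp (continuous_fst.comp continuous_snd)).prodMk
        ((continuous_sgn _).comp (continuous_snd.comp continuous_snd)))
  apply_eq_iff_mem_orbit {e₁ e₂} := by
    constructor
    · intro h
      have h' := congrArg (Subtype.val) h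
      rw [qmap_coe, qmap_coe] at h'
      obtain ⟨g, hg1, hg2, hg3⟩ := exists_signs (norm_sp _) (norm_sp _) (norm_sp _) (norm_sp _)
        (norm_sp _) (norm_sp _) h'.symm
      refine ⟨g, ?_⟩
      change g +ᵥ e₂ = e₁
      rw [vadd_def]
      refine Prod.ext (Subtype.ext ?_) (Prod.ext (Subtype.ext ?_) (Subtype.ext ?_))
      · exact hg1.symm
      · exact hg2.symm
      · exact hg3.symm
    · rintro ⟨g, rfl⟩
      exact qmap_vadd g e₂
  disjoint e := by
    refine ⟨{x | dist x.1 e.1 < 1 ∧ dist x.2.1 e.2.1 < 1}, ?_, ?_⟩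
    · refine IsOpen.mem_nhds ?_ ⟨by simp, by simp⟩
      exact (isOpen_lt (continuous_fst.dist continuous_const) continuous_const).inter
        (isOpen_lt ((continuous_fst.comp continuous_snd).dist continuous_const) continuous_const)
    · rintro g ⟨_, ⟨x, ⟨hx1, hx2⟩, rfl⟩, hx3, hx4⟩
      change dist (g +ᵥ x).1 e.1 < 1 at hx3
      change dist (g +ᵥ x).2.1 e.2.1 < 1 at hx4
      rw [vadd_def] at hx3 hx4
      exact Prod.ext (dist_sgn e.1 hx1 hx3) (dist_sgn e.2.1 hx2 hx4)

/-- the first nonzero coordinate is positive. -/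
def Pos (u : Ve N) : Prop := ∃ i, 0 < u i ∧ ∀ j < i, u j = 0

open Classical in
/-- the label of a unit vector -/
noncomputable def bit (x : Sp N) : ZMod 2 := if Pos (x : Ve N) then 0 else 1

theorem pos_or (u : Ve N) (hu : u ≠ 0) : Pos u ∨ Pos (-u) := by
  classical
  have h : ∃ i, u i ≠ 0 := by
    by_contra hcon
    push Not at hcon
    apply hu
    ext i
    simpa using hcon i
  let s : Finset (Fin (N + 1)) := Finset.univ.filter fun i => u i ≠ 0
  have hs : s.Nonempty := by
    obtain ⟨i, hi⟩ := h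
    exact ⟨i, by simp [s, hi]⟩
  have hi : u (s.min' hs) ≠ 0 := by
    have := s.min'_mem hs
    simpa [s] using this
  have hj : ∀ j < s.min' hs, u j = 0 := by
    intro j hj
    by_contra hne
    have := s.min'_le j (by simp [s, hne])
    exact absurd hj (not_lt.2 this)
  rcases lt_or_gt_of_ne hi with h1 | h1
  · right
    refine ⟨s.min' hs, by simpa using h1, fun j hjj => by simpa using hj j hjj⟩
  · left
    exact ⟨s.min' hs, h1, hj⟩

theorem not_pos_both (u : Ve N) (h1 : Pos u) (h2 : Pos (-u)) : False := by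
  obtain ⟨i, hi, hi'⟩ := h1
  obtain ⟨j, hj, hj'⟩ := h2
  simp only [PiLp.neg_apply, Left.neg_pos_iff, neg_eq_zero] at hj hj'
  rcases lt_trichotomy i j with h | h | h
  · exact absurd (hj' i h) hi.ne'
  · subst h
    exact absurd hi (not_lt.2 hj.le)
  · exact absurd (hi' j h) hj.ne

theorem bit_sgn (a : ZMod 2) (x : Sp N) : bit (sgn a x) = a + bit x := by
  rcases zmod_cases a with rfl | rfl
  · rw [sgn_zero, zero_add]
  · have hx : (x : Ve N) ≠ 0 := by
      intro h
      have := norm_sp x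
      rw [h, norm_zero] at this
      exact zero_ne_one this
    have h1 : ((sgn 1 x : Sp N) : Ve N) = -(x : Ve N) := by
      rw [sgn_coe, sg_one, neg_smul, one_smul]
    unfold bit
    rw [h1]
    by_cases h : Pos (x : Ve N)
    · rw [if_pos h, if_neg fun h' => not_pos_both _ h h', add_zero]
    · rw [if_neg h, if_pos ((pos_or _ hx).resolve_left h)]
      decide

/-- the labels of the points of the covering space -/
noncomputable def lab (x : Xs N) : Gr := (bit x.1, bit x.2.1)

theorem lab_vadd (g : Gr) (x : Xs N) : lab (g +ᵥ x) = g + lab x := by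
  rw [vadd_def]
  unfold lab
  simp only [bit_sgn]
  rfl

/-- basis vectors -/
noncomputable def ev (j : Fin (N + 1)) : Ve N := EuclideanSpace.single j 1

theorem bit_ev (j : Fin (N + 1)) (x : Sp N) (hx : (x : Ve N) = ev j) : bit x = 0 := by
  unfold bit
  rw [if_pos]
  rw [hx]
  refine ⟨j, by simp [ev], fun i hi => ?_⟩
  simp [ev, hi.ne]

/-- the vector with the barycentric coordinates `p` -/
noncomputable def vecI {m : ℕ} (I : Fin (m + 1) → Fin (N + 1)) (s : Fin (m + 1) → ZMod 2)
    (p : Fin (m + 1) → ℝ) : Ve N :=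
  ∑ l, (p l * sg (s l)) • ev (I l)

theorem vecI_ne {m : ℕ} (I : Fin (m + 1) ↪ Fin (N + 1)) (s : Fin (m + 1) → ZMod 2)
    (p : Simplex m) : vecI I s p ≠ 0 := by
  intro h
  have h1 : ∀ l, p l = 0 := by
    intro l
    have h2 : (vecI I s p) (I l) = 0 := by rw [h]; rfl
    have h3 : (vecI I s p) (I l) = p l * sg (s l) := by
      unfold vecI ev
      rw [WithLp.ofLp_sum, Finset.sum_apply, Finset.sum_eq_single l]
      · simp
      · intro b _ hb
        have : I l ≠ I b := fun h => hb (I.injective h).symm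
        simp [this]
      · simp
    rw [h3] at h2
    exact (mul_eq_zero.1 h2).resolve_right (sg_ne _)
  have h4 : ∑ l, p l = 1 := stdSimplex.sum_eq_one p
  simp [h1] at h4

theorem continuous_vecI {m : ℕ} (I : Fin (m + 1) → Fin (N + 1)) (s : Fin (m + 1) → ZMod 2) :
    Continuous fun p : Simplex m => vecI I s p := by
  unfold vecI
  refine continuous_finsetSum _ fun l _ => ?_
  have h1 : Continuous fun p : Simplex m => p l := (continuous_apply l).comp continuous_subtype_val
  exact (h1.mul continuous_const).smul continuous_const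

/-- the point of the sphere with the barycentric coordinates `p`. -/
noncomputable def uI {m : ℕ} (I : Fin (m + 1) ↪ Fin (N + 1)) (s : Fin (m + 1) → ZMod 2)
    (p : Simplex m) : Sp N :=
  ⟨‖vecI I s p‖⁻¹ • vecI I s p, by
    simp only [mem_sphere_iff_norm, sub_zero, norm_smul, norm_inv, norm_norm]
    exact inv_mul_cancel₀ (norm_ne_zero_iff.2 (vecI_ne I s p))⟩

theorem continuous_uI {m : ℕ} (I : Fin (m + 1) ↪ Fin (N + 1)) (s : Fin (m + 1) → ZMod 2) :
    Continuous (uI I s) := by
  refine Continuous.subtype_mk ?_ _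
  exact ((continuous_vecI I s).norm.inv₀ fun p => norm_ne_zero_iff.2 (vecI_ne I s p)).smul
    (continuous_vecI I s)

theorem uI_add {m : ℕ} (I : Fin (m + 1) ↪ Fin (N + 1)) (a : ZMod 2) (s : Fin (m + 1) → ZMod 2)
    (p : Simplex m) : uI I (fun l => a + s l) p = sgn a (uI I s p) := by
  have h1 : vecI I (fun l => a + s l) p = sg a • vecI I s p := by
    unfold vecI
    rw [Finset.smul_sum]
    refine Finset.sum_congr rfl fun l _ => ?_
    rw [sg_add, smul_smul]
    congr 1
    ring
  apply Subtype.ext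
  rw [sgn_coe]
  unfold uI
  simp only [h1, norm_smul, Real.norm_eq_abs, abs_sg, one_mul]
  rw [smul_comm]

theorem sum_map {m : ℕ} (f : Fin (m + 1) → Fin (m + 2)) (p : Simplex m)
    (F : Fin (m + 2) → Ve N) (c : Fin (m + 2) → ℝ) :
    ∑ l, ((stdSimplex.map f p) l * c l) • F l = ∑ l, (p l * c (f l)) • F (f l) := by
  classical
  have h1 : ∀ l, (stdSimplex.map f p) l = ∑ k with f k = l, p k := by
    intro l
    rw [stdSimplex.map_coe, FunOnFinite.linearMap_apply_apply]
  simp only [h1, Finset.sum_mul, Finset.sum_smul]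
  rw [Finset.sum_sigma', ← Finset.sum_fiberwise Finset.univ f, Finset.sum_sigma']
  refine Finset.sum_congr rfl ?_
  rintro ⟨l, k⟩ hk
  simp only [Finset.mem_sigma, Finset.mem_univ, Finset.mem_filter, true_and] at hk
  simp only [hk]

theorem uI_face {m : ℕ} (I : Fin (m + 2) ↪ Fin (N + 1)) (s : Fin (m + 2) → ZMod 2)
    (i : Fin (m + 2)) (p : Simplex m) :
    uI I s (face m i p) = uI (i.succAboveEmb.trans I) (s ∘ i.succAbove) p := by
  have h1 : vecI I s (face m i p) = vecI (i.succAboveEmb.trans I) (s ∘ i.succAbove) p :=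
    sum_map i.succAbove p (fun l => ev (I l)) fun l => sg (s l)
  apply Subtype.ext
  unfold uI
  simp only [h1]

theorem uI_vertex {m : ℕ} (I : Fin (m + 1) ↪ Fin (N + 1)) (s : Fin (m + 1) → ZMod 2)
    (l : Fin (m + 1)) : bit (uI I s (stdSimplex.vertex l)) = s l := by
  have h1 : vecI I s (stdSimplex.vertex l : Simplex m) = sg (s l) • ev (I l) := by
    unfold vecI
    rw [Finset.sum_eq_single l]
    · simp
    · intro b _ hb
      simp [hb]
    · simp
  have hn : ‖ev (I l)‖ = 1 := by simp [ev]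
  let w : Sp N := ⟨ev (I l), by simpa using hn⟩
  have h2 : uI I s (stdSimplex.vertex l) = sgn (s l) w := by
    apply Subtype.ext
    unfold uI
    rw [sgn_coe]
    simp only [h1, norm_smul, Real.norm_eq_abs, abs_sg, hn, mul_one, inv_one, one_smul]
    rfl
  rw [h2, bit_sgn, bit_ev (I l) w rfl, add_zero]

/-- The frames. -/
noncomputable def frames (N : ℕ) : Frames N (qmap N) lab where
  S I w := ⟨fun p => (uI I (fun l => (w l).1) p, uI I (fun l => (w l).2) p,
      uI I (fun l => (w l).1 + (w l).2) p),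
    (continuous_uI _ _).prodMk ((continuous_uI _ _).prodMk (continuous_uI _ _))⟩
  face_eq I w i := by
    ext1 p
    change (uI I _ (face _ i p), uI I _ (face _ i p), uI I _ (face _ i p)) = _
    rw [uI_face, uI_face, uI_face]
    rfl
  add_eq I g w := by
    ext1 p
    change qmap N (uI I (fun l => g.1 + (w l).1) p, uI I (fun l => g.2 + (w l).2) p,
      uI I (fun l => g.1 + (w l).1 + (g.2 + (w l).2)) p) = qmap N (uI I (fun l => (w l).1) p,
        uI I (fun l => (w l).2) p, uI I (fun l => (w l).1 + (w l).2) p)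
    have h1 : (fun l => g.1 + (w l).1 + (g.2 + (w l).2)) =
        fun l => (g.1 + g.2) + ((w l).1 + (w l).2) := by
      funext l
      exact add_add_add_comm _ _ _ _
    rw [h1, uI_add, uI_add, uI_add]
    exact qmap_vadd g (uI I (fun l => (w l).1) p, uI I (fun l => (w l).2) p,
      uI I (fun l => (w l).1 + (w l).2) p)
  label_eq I w l := by
    change (bit (uI I (fun l => (w l).1) (stdSimplex.vertex l)),
      bit (uI I (fun l => (w l).2) (stdSimplex.vertex l))) = w l
    rw [uI_vertex, uI_vertex]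

/-- **The lower bound for the total mod 2 Betti number.** -/
theorem le_totalBetti_seg (N : ℕ) : (((N + 1) * (N + 2) / 2 : ℕ) : Cardinal.{0}) ≤
    totalBetti (Seg N) :=
  le_totalBetti N fun n hn => le_rank_of_frames isCovering lab_vadd (frames N) n hn

end Pool.Agent.T6.H39.TN
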