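import Pool.Agent.T6.H39.TN.Chart

/-!
# The two-number of the space of unit decomposable tensors
-/

set_option autoImplicit false

open Set Topology
open scoped RealInnerProductSpace Cardinal

namespace Pool.Agent.T6.H39.TN

theorem fin_three : ∀ c1 c2 c3 d : Fin 3, c1 ≠ d → c2 ≠ d → c3 ≠ d → c1 ≠ c2 → c1 ≠ c3 →
    c2 ≠ c3 → False := by
  intro c1 c2 c3 d _ _ _ _ _ _
  omega

/-- If the edges of the complete graph on at least five vertices are divided into three
equivalence relations, then one of them is total. -/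
theorem exists_total {ι : Type*} [Fintype ι] (hι : 5 ≤ Fintype.card ι) (P : Fin 3 → ι → ι → Prop)
    (hsymm : ∀ c i j, P c i j → P c j i) (htrans : ∀ c i j k, P c i j → P c j k → P c i k)
    (hex : ∀ i j, i ≠ j → ∃ c, P c i j)
    (huniq : ∀ i j, i ≠ j → ∀ c d, P c i j → P d i j → c = d) :
    ∃ c, ∀ i j, i ≠ j → P c i j := by
  classical
  have hne : Nonempty ι := Fintype.card_pos_iff.1 (by omega)
  obtain ⟨v⟩ := hne
  -- pigeonhole at the vertex `v`
  have hf : ∃ f : ι → Fin 3, ∀ i, i ≠ v → P (f i) v i := by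
    have : ∀ i, ∃ c, i ≠ v → P c v i := by
      intro i
      by_cases h : i = v
      · exact ⟨0, fun h' => absurd h h'⟩
      · obtain ⟨c, hc⟩ := hex v i (Ne.symm h)
        exact ⟨c, fun _ => hc⟩
    choose f hf using this
    exact ⟨f, hf⟩
  obtain ⟨f, hf⟩ := hf
  obtain ⟨a, ha, b, hb, hab, hfab⟩ := Finset.exists_ne_map_eq_of_card_lt_of_maps_to
    (s := Finset.univ.erase v) (t := (Finset.univ : Finset (Fin 3))) (f := f)
    (by
      rw [Finset.card_erase_of_mem (Finset.mem_univ v), Finset.card_univ, Finset.card_univ,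
        Fintype.card_fin]
      omega)
    (fun i _ => Finset.mem_univ _)
  rw [Finset.mem_erase] at ha hb
  have hva : P (f a) v a := hf a ha.1
  have hvb : P (f a) v b := by
    rw [hfab]
    exact hf b hb.1
  have hab' : P (f a) a b := htrans _ _ _ _ (hsymm _ _ _ hva) hvb
  -- every vertex is in the class of `v`
  have key : ∀ r, r ≠ v → P (f a) v r := by
    intro r hr
    by_contra hcon
    have hra : r ≠ a := by
      rintro rfl
      exact hcon hva
    have hrb : r ≠ b := by
      rintro rfl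
      exact hcon hvb
    obtain ⟨c1, h1⟩ := hex r v hr
    obtain ⟨c2, h2⟩ := hex r a hra
    obtain ⟨c3, h3⟩ := hex r b hrb
    have n1 : c1 ≠ f a := by
      rintro rfl
      exact hcon (hsymm _ _ _ h1)
    have n2 : c2 ≠ f a := by
      rintro rfl
      exact hcon (htrans _ _ _ _ hva (hsymm _ _ _ h2))
    have n3 : c3 ≠ f a := by
      rintro rfl
      exact hcon (htrans _ _ _ _ hvb (hsymm _ _ _ h3))
    have n12 : c1 ≠ c2 := by
      rintro rfl
      exact n1 (huniq v a (Ne.symm ha.1) _ _ (htrans _ _ _ _ (hsymm _ _ _ h1) h2) hva)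
    have n13 : c1 ≠ c3 := by
      rintro rfl
      exact n1 (huniq v b (Ne.symm hb.1) _ _ (htrans _ _ _ _ (hsymm _ _ _ h1) h3) hvb)
    have n23 : c2 ≠ c3 := by
      rintro rfl
      exact n2 (huniq a b hab _ _ (htrans _ _ _ _ (hsymm _ _ _ h2) h3) hab')
    exact fin_three c1 c2 c3 (f a) n1 n2 n3 n12 n13 n23
  refine ⟨f a, fun i j hij => ?_⟩
  by_cases hi : i = v
  · subst hi
    exact key j (Ne.symm hij)
  · by_cases hj : j = v
    · subst hj
      exact hsymm _ _ _ (key i hi)
    · exact htrans _ _ _ _ (hsymm _ _ _ (key i hi)) (key j hj)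

variable {N : ℕ}

/-- The vectors are parallel. -/
def Par (u v : Ve N) : Prop := ∃ a : ZMod 2, v = sg a • u

theorem Par.symm {u v : Ve N} (h : Par u v) : Par v u := by
  obtain ⟨a, rfl⟩ := h
  exact ⟨a, by rw [smul_smul, sg_sq, one_smul]⟩

theorem Par.trans {u v w : Ve N} (h : Par u v) (h' : Par v w) : Par u w := by
  obtain ⟨a, rfl⟩ := h
  obtain ⟨b, rfl⟩ := h'
  exact ⟨b + a, by rw [smul_smul, sg_add]⟩

theorem Par.not_orth {u v : Ve N} (hu : ‖u‖ = 1) (h : Par u v) (h' : ⟪u, v⟫ = 0) : False := by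
  obtain ⟨a, rfl⟩ := h
  rw [inner_smul_right, real_inner_self_eq_norm_sq, hu] at h'
  have := sg_ne a
  apply this
  linarith

theorem par_or_orth {x x' : Ve N} (hx : ‖x‖ = 1) (hx' : ‖x'‖ = 1) {a : ZMod 2}
    (h : x' = sg a • Rf x x') : (a = 0 ∧ Par x x') ∨ (a = 1 ∧ ⟪x, x'⟫ = 0) := by
  rcases zmod_cases a with rfl | rfl
  · left
    refine ⟨rfl, ?_⟩
    rw [sg_zero, one_smul] at h
    have h1 : x' ∈ (ℝ ∙ x) := (Submodule.reflection_eq_self_iff x').1 h.symm
    obtain ⟨r, hr⟩ := Submodule.mem_span_singleton.1 h1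
    have h2 : |r| = 1 := by
      have h3 : ‖r • x‖ = 1 := by rw [hr, hx']
      rwa [norm_smul, hx, mul_one, Real.norm_eq_abs] at h3
    obtain ⟨b, hb⟩ := exists_sg h2
    exact ⟨b, by rw [← hb, hr]⟩
  · right
    refine ⟨rfl, ?_⟩
    rw [sg_one, neg_smul, one_smul] at h
    have h1 : ⟪x, Rf x x'⟫ = ⟪x, x'⟫ := by
      calc ⟪x, Rf x x'⟫ = ⟪Rf x x, Rf x x'⟫ := by rw [Rf_self]
        _ = ⟪x, x'⟫ := LinearIsometryEquiv.inner_map_map _ _ _
    have h2 : ⟪x, x'⟫ = -⟪x, Rf x x'⟫ := by
      conv_lhs => rw [h]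
      rw [inner_neg_right]
    linarith

/-- the relation of coordinates of a pair of points fixed by each other's symmetry -/
theorem dichotomy {x y z x' y' z' : Ve N} (hx : ‖x‖ = 1) (hy : ‖y‖ = 1) (hz : ‖z‖ = 1)
    (hx' : ‖x'‖ = 1) (hy' : ‖y'‖ = 1) (hz' : ‖z'‖ = 1)
    (h : Sf x y z (tri x' y' z') = tri x' y' z') :
    (Par x x' ∧ Par y y' ∧ Par z z') ∨ (Par x x' ∧ ⟪y, y'⟫ = 0 ∧ ⟪z, z'⟫ = 0) ∨
      (⟪x, x'⟫ = 0 ∧ Par y y' ∧ ⟪z, z'⟫ = 0) ∨ (⟪x, x'⟫ = 0 ∧ ⟪y, y'⟫ = 0 ∧ Par z z') := by
  rw [Sf_tmul] at h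
  obtain ⟨g, h1, h2, h3⟩ := exists_signs
    (by rw [LinearIsometryEquiv.norm_map, hx']) (by rw [LinearIsometryEquiv.norm_map, hy'])
    (by rw [LinearIsometryEquiv.norm_map, hz']) hx' hy' hz' h
  rcases par_or_orth hx hx' h1 with ⟨a, h1⟩ | ⟨a, h1⟩ <;>
    rcases par_or_orth hy hy' h2 with ⟨b, h2⟩ | ⟨b, h2⟩ <;>
    rcases par_or_orth hz hz' h3 with ⟨c, h3⟩ | ⟨c, h3⟩
  · exact Or.inl ⟨h1, h2, h3⟩
  · rw [a, b] at c
    exact absurd c (by decide)
  · rw [a, b] at c
    exact absurd c (by decide)
  · exact Or.inr (Or.inl ⟨h1, h2, h3⟩)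
  · rw [a, b] at c
    exact absurd c (by decide)
  · exact Or.inr (Or.inr (Or.inl ⟨h1, h2, h3⟩))
  · exact Or.inr (Or.inr (Or.inr ⟨h1, h2, h3⟩))
  · rw [a, b] at c
    exact absurd c (by decide)

theorem par_tri {x y z x' y' z' : Ve N} (hx : Par x x') (hy : Par y y') (hz : Par z z') :
    tri x' y' z' = tri x y z ∨ tri x' y' z' = -tri x y z := by
  obtain ⟨a, rfl⟩ := hx
  obtain ⟨b, rfl⟩ := hy
  obtain ⟨c, rfl⟩ := hz
  rw [tri_smul₁, tri_smul₂, tri_smul₃, smul_smul, smul_smul, ← sg_add, ← sg_add]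
  rcases zmod_cases (a + b + c) with h | h
  · left
    rw [h, sg_zero, one_smul]
  · right
    rw [h, sg_one, neg_smul, one_smul]

theorem card_le_of_orth {n : ℕ} (v : Fin n → Ve N) (hv : ∀ i, ‖v i‖ = 1)
    (ho : ∀ i j, i ≠ j → ⟪v i, v j⟫ = 0) : n ≤ N + 1 := by
  have h : Orthonormal ℝ v := ⟨hv, fun i j hij => ho i j hij⟩
  have := h.linearIndependent.fintype_card_le_finrank
  simpa using this

/-- Points of an antipodal set, no two of which are equal or opposite. -/
theorem card_le_of_ne {K : ℕ} (p : Fin K → Seg N)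
    (hp : ∀ i j, symm (p i) (p j : Te N) = p j)
    (hne : ∀ i j, i ≠ j → (p j : Te N) ≠ p i ∧ (p j : Te N) ≠ -(p i : Te N)) :
    K ≤ max 4 (N + 1) := by
  by_contra hcon
  rw [not_le] at hcon
  have h5 : 5 ≤ K := by
    have := le_max_left 4 (N + 1)
    omega
  have hN : N + 1 < K := by
    have := le_max_right 4 (N + 1)
    omega
  choose x y z hx hy hz hxyz hs using fun i => symm_spec (p i)
  have D : ∀ i j, i ≠ j → (Par (x i) (x j) ∧ ⟪y i, y j⟫ = 0 ∧ ⟪z i, z j⟫ = 0) ∨
      (⟪x i, x j⟫ = 0 ∧ Par (y i) (y j) ∧ ⟪z i, z j⟫ = 0) ∨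
      (⟪x i, x j⟫ = 0 ∧ ⟪y i, y j⟫ = 0 ∧ Par (z i) (z j)) := by
    intro i j hij
    have h1 := hp i j
    rw [hs i, hxyz j] at h1
    rcases dichotomy (hx i) (hy i) (hz i) (hx j) (hy j) (hz j) h1 with h | h | h | h
    · exfalso
      have h2 := hne i j hij
      rw [hxyz i, hxyz j] at h2
      rcases par_tri h.1 h.2.1 h.2.2 with h3 | h3
      · exact h2.1 h3
      · exact h2.2 h3
    · exact Or.inl h
    · exact Or.inr (Or.inl h)
    · exact Or.inr (Or.inr h)
  let P : Fin 3 → Fin K → Fin K → Prop := fun c i j =>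
    if c = 0 then Par (x i) (x j) else if c = 1 then Par (y i) (y j) else Par (z i) (z j)
  obtain ⟨c, hc⟩ := exists_total (ι := Fin K) (by simpa using h5) P
    (by
      intro c i j h
      fin_cases c
      · exact Par.symm h
      · exact Par.symm h
      · exact Par.symm h)
    (by
      intro c i j k h h'
      fin_cases c
      · exact Par.trans h h'
      · exact Par.trans h h'
      · exact Par.trans h h')
    (by
      intro i j hij
      rcases D i j hij with h | h | h
      · exact ⟨0, h.1⟩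
      · exact ⟨1, h.2.1⟩
      · exact ⟨2, h.2.2⟩)
    (by
      have key : ∀ i j, i ≠ j → ∃ c, ∀ d, P d i j → d = c := by
        intro i j hij
        rcases D i j hij with h | h | h
        · refine ⟨0, fun d hd => ?_⟩
          fin_cases d
          · rfl
          · exact absurd h.2.1 fun h' => Par.not_orth (hy i) hd h'
          · exact absurd h.2.2 fun h' => Par.not_orth (hz i) hd h'
        · refine ⟨1, fun d hd => ?_⟩
          fin_cases d
          · exact absurd h.1 fun h' => Par.not_orth (hx i) hd h'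
          · rfl
          · exact absurd h.2.2 fun h' => Par.not_orth (hz i) hd h'
        · refine ⟨2, fun d hd => ?_⟩
          fin_cases d
          · exact absurd h.1 fun h' => Par.not_orth (hx i) hd h'
          · exact absurd h.2.1 fun h' => Par.not_orth (hy i) hd h'
          · rfl
      intro i j hij c d hc hd
      obtain ⟨e, he⟩ := key i j hij
      rw [he c hc, he d hd])
  have h1 : c = 0 ∨ c = 1 ∨ c = 2 := by
    revert c
    intro c _
    fin_cases c
    · exact Or.inl rfl
    · exact Or.inr (Or.inl rfl)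
    · exact Or.inr (Or.inr rfl)
  have h2 : K ≤ N + 1 := by
    rcases h1 with rfl | rfl | rfl
    · refine card_le_of_orth y hy fun i j hij => ?_
      have h3 : Par (x i) (x j) := hc i j hij
      rcases D i j hij with h | h | h
      · exact h.2.1
      · exact (Par.not_orth (hx i) h3 h.1).elim
      · exact (Par.not_orth (hx i) h3 h.1).elim
    · refine card_le_of_orth x hx fun i j hij => ?_
      have h3 : Par (y i) (y j) := hc i j hij
      rcases D i j hij with h | h | h
      · exact (Par.not_orth (hy i) h3 h.2.1).elim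
      · exact h.1
      · exact (Par.not_orth (hy i) h3 h.2.1).elim
    · refine card_le_of_orth x hx fun i j hij => ?_
      have h3 : Par (z i) (z j) := hc i j hij
      rcases D i j hij with h | h | h
      · exact (Par.not_orth (hz i) h3 h.2.2).elim
      · exact (Par.not_orth (hz i) h3 h.2.2).elim
      · exact h.1
  omega

/-- **The two-number is at most `2 * max 4 (N + 1)`.** -/
theorem twoNumber_seg_le (N : ℕ) :
    twoNumber (symm (N := N)) ≤ ((2 * max 4 (N + 1) : ℕ) : Cardinal) := by
  classical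
  refine ciSup_le' fun A => ?_
  obtain ⟨A, hA⟩ := A
  change #A ≤ _
  by_contra hcon
  rw [not_le] at hcon
  set K := max 4 (N + 1) with hK
  have h1 : ((2 * K + 1 : ℕ) : Cardinal) ≤ #A := by
    have := Order.succ_le_of_lt hcon
    rw [Cardinal.succ_natCast] at this
    exact_mod_cast this
  obtain ⟨s, hs⟩ := Cardinal.exists_finset_le_card _ _ h1
  let f : A → Set (Te N) := fun p => {((p : Seg N) : Te N), -((p : Seg N) : Te N)}
  have hcard : K + 1 ≤ (s.image f).card := by
    have h2 : s.card ≤ 2 * (s.image f).card := by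
      refine Finset.card_le_mul_card_image s 2 fun b hb => ?_
      obtain ⟨p, hp, rfl⟩ := Finset.mem_image.1 hb
      -- the fibre has at most two elements
      have h3 : ((s.filter fun q => f q = f p).image fun q : A => ((q : Seg N) : Te N)) ⊆
          {((p : Seg N) : Te N), -((p : Seg N) : Te N)} := by
        intro t ht
        obtain ⟨q, hq, rfl⟩ := Finset.mem_image.1 ht
        have h4 : f q = f p := (Finset.mem_filter.1 hq).2
        have h5 : ((q : Seg N) : Te N) ∈ f p := by
          rw [← h4]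
          exact Or.inl rfl
        rcases h5 with h5 | h5
        · rw [h5]
          simp
        · rw [h5]
          simp
      have h6 : Function.Injective fun q : A => ((q : Seg N) : Te N) :=
        Subtype.val_injective.comp Subtype.val_injective
      rw [← Finset.card_image_of_injective _ h6]
      exact (Finset.card_le_card h3).trans Finset.card_le_two
    omega
  -- choose representatives
  obtain ⟨t, ht, htc⟩ := Finset.exists_subset_card_eq hcard
  have hpre : ∀ b : t, ∃ p : A, f p = b := by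
    intro b
    obtain ⟨p, _, hp⟩ := Finset.mem_image.1 (ht b.2)
    exact ⟨p, hp⟩
  choose g hg using hpre
  let e : Fin (K + 1) ≃ t := (Fintype.equivFinOfCardEq (by simpa using htc)).symm
  have hle := card_le_of_ne (K := K + 1) (fun i => ((g (e i) : A) : Seg N))
    (fun i j => hA _ (g (e i)).2 _ (g (e j)).2)
    (by
      intro i j hij
      have hne : f (g (e j)) ≠ f (g (e i)) := by
        rw [hg, hg]
        intro h
        exact hij (e.injective (Subtype.ext h)).symm
      constructor
      · intro h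
        apply hne
        change ({_, _} : Set (Te N)) = {_, _}
        rw [h]
      · intro h
        apply hne
        change ({_, _} : Set (Te N)) = {_, _}
        rw [h, neg_neg, Set.pair_comm])
  rw [← hK] at hle
  omega

end Pool.Agent.T6.H39.TN
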