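import Pool.Agent.T6.H39.TN.Def
import Pool.Agent.T6.H39.TN.Two

/-!
# The two forms of the definition of singular cohomology agree
-/

set_option autoImplicit false

open scoped Cardinal

namespace Pool.Agent.T6.H39.TN

theorem rank_cohomology_eq (M : Type) [TopologicalSpace M] (n : ℕ) :
    Module.rank (ZMod 2) (Singular.Cohomology M n) = Module.rank (ZMod 2) (Cohomology M n) := by
  cases n with
  | zero => rfl
  | succ n => rfl

theorem totalBetti_eq (M : Type) [TopologicalSpace M] : Singular.totalBetti M = totalBetti M := by
  unfold Singular.totalBetti totalBetti
  exact congrArg Cardinal.sum (funext fun n => rank_cohomology_eq M n)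

end Pool.Agent.T6.H39.TN
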